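import Pool.Agent.V7H75.WS.Trace

set_option autoImplicit false
set_option linter.unusedSectionVars false
set_option linter.unusedVariables false

open scoped InnerProductSpace ENNReal Topology

namespace Pool.Agent.V7H75.WS

universe u

variable {H : Type u} [NormedAddCommGroup H] [InnerProductSpace ℂ H] [CompleteSpace H]

/-- bounded sequences of operators have weak limits along ultrafilters -/
theorem exists_weak_lim (𝒰 : Ultrafilter ℕ) (T : ℕ → H →L[ℂ] H) (C : ℝ)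
    (hC : ∀ n, ‖T n‖ ≤ C) :
    ∃ K : H →L[ℂ] H, ∀ x y, Filter.Tendsto (fun n => ⟪T n x, y⟫_ℂ) 𝒰 (𝓝 ⟪K x, y⟫_ℂ) := by
  have hb : ∀ n x y, ‖⟪T n x, y⟫_ℂ‖ ≤ C * ‖x‖ * ‖y‖ := fun n x y => by
    calc ‖⟪T n x, y⟫_ℂ‖ ≤ ‖T n x‖ * ‖y‖ := norm_inner_le_norm _ _
      _ ≤ (‖T n‖ * ‖x‖) * ‖y‖ := by gcongr; exact (T n).le_opNorm x
      _ ≤ C * ‖x‖ * ‖y‖ := by gcongr; exact hC n
  have hex : ∀ x y, ∃ l : ℂ, ‖l‖ ≤ C * ‖x‖ * ‖y‖ ∧
      Filter.Tendsto (fun n => ⟪T n x, y⟫_ℂ) 𝒰 (𝓝 l) := by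
    intro x y
    obtain ⟨l, hl, h2⟩ := (isCompact_closedBall (0 : ℂ) (C * ‖x‖ * ‖y‖)).ultrafilter_le_nhds
      (𝒰.map (fun n => ⟪T n x, y⟫_ℂ)) (by
        rw [Filter.le_principal_iff, Ultrafilter.coe_map, Filter.mem_map]
        refine Filter.Eventually.of_forall fun n => ?_
        show _ ∈ Metric.closedBall (0 : ℂ) (C * ‖x‖ * ‖y‖)
        rw [mem_closedBall_zero_iff]
        exact hb n x y)
    exact ⟨l, by rwa [mem_closedBall_zero_iff] at hl, h2⟩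
  choose B hB1 hB2 using hex
  have u := fun {f : ℕ → ℂ} {a b : ℂ} (h1 : Filter.Tendsto f 𝒰 (𝓝 a))
    (h2 : Filter.Tendsto f 𝒰 (𝓝 b)) => tendsto_nhds_unique h1 h2
  let L : H →ₛₗ[starRingEnd ℂ] H →ₗ[ℂ] ℂ := LinearMap.mk₂'ₛₗ (starRingEnd ℂ) (RingHom.id ℂ) B
    (fun x x' y => by
      refine u (hB2 _ _) ?_
      simp_rw [map_add, inner_add_left]
      exact (hB2 x y).add (hB2 x' y))
    (fun c x y => by
      refine u (hB2 _ _) ?_
      simp_rw [map_smul, inner_smul_left]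
      exact (hB2 x y).const_mul _)
    (fun x y y' => by
      refine u (hB2 _ _) ?_
      simp_rw [inner_add_right]
      exact (hB2 x y).add (hB2 x y'))
    (fun c x y => by
      refine u (hB2 _ _) ?_
      simp_rw [inner_smul_right]
      exact (hB2 x y).const_mul _)
  let L' : H →L⋆[ℂ] H →L[ℂ] ℂ := L.mkContinuous₂ C (fun x y => hB1 x y)
  refine ⟨InnerProductSpace.continuousLinearMapOfBilin L', fun x y => ?_⟩
  rw [InnerProductSpace.continuousLinearMapOfBilin_apply]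
  exact hB2 x y

theorem norm_Ad_le (W : H ≃ₗᵢ[ℂ] H) (T : H →L[ℂ] H) : ‖Ad W T‖ ≤ ‖T‖ := by
  refine ContinuousLinearMap.opNorm_le_bound _ (norm_nonneg _) fun x => ?_
  rw [Ad_apply, LinearIsometryEquiv.norm_map]
  calc ‖T (W.symm x)‖ ≤ ‖T‖ * ‖W.symm x‖ := T.le_opNorm _
    _ = ‖T‖ * ‖x‖ := by rw [LinearIsometryEquiv.norm_map]

/-- the averages of the operators `U ^ k T U ^ (-k)` -/
noncomputable def avg (U : H ≃ₗᵢ[ℂ] H) (T : H →L[ℂ] H) (n : ℕ) : H →L[ℂ] H :=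
  (((n + 1 : ℕ) : ℂ)⁻¹) • ∑ k ∈ Finset.range (n + 1), Ad (U ^ k) T

theorem norm_avg_le (U : H ≃ₗᵢ[ℂ] H) (T : H →L[ℂ] H) (n : ℕ) : ‖avg U T n‖ ≤ ‖T‖ := by
  unfold avg
  rw [norm_smul, norm_inv, Complex.norm_natCast, inv_mul_le_iff₀ (by positivity)]
  calc ‖∑ k ∈ Finset.range (n + 1), Ad (U ^ k) T‖
      ≤ ∑ k ∈ Finset.range (n + 1), ‖Ad (U ^ k) T‖ := norm_sum_le _ _
    _ ≤ ∑ k ∈ Finset.range (n + 1), ‖T‖ := Finset.sum_le_sum fun k _ => norm_Ad_le _ _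
    _ = _ := by simp

theorem avg_apply (U : H ≃ₗᵢ[ℂ] H) (T : H →L[ℂ] H) (n : ℕ) (x : H) :
    avg U T n x = (((n + 1 : ℕ) : ℂ)⁻¹) • ∑ k ∈ Finset.range (n + 1), Ad (U ^ k) T x := by
  unfold avg
  simp

/-- moving by `U` changes the averages by `O (1 / n)` -/
theorem Ad_avg (U : H ≃ₗᵢ[ℂ] H) (T : H →L[ℂ] H) (n : ℕ) :
    ‖Ad U (avg U T n) - avg U T n‖ ≤ 2 * ‖T‖ / (n + 1 : ℕ) := by
  have h1 : Ad U (avg U T n) - avg U T n =
      (((n + 1 : ℕ) : ℂ)⁻¹) • (Ad (U ^ (n + 1)) T - T) := by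
    have h2 : Ad U (avg U T n) =
        (((n + 1 : ℕ) : ℂ)⁻¹) • ∑ k ∈ Finset.range (n + 1), Ad (U ^ (k + 1)) T := by
      ext x
      rw [Ad_apply, avg_apply]
      simp only [map_smul, map_sum, smul_apply, sum_apply]
      congr 1
      refine Finset.sum_congr rfl fun k _ => ?_
      rw [Ad_apply, Ad_apply]
      have : U ^ (k + 1) = U * U ^ k := pow_succ' U k
      rw [this]
      rfl
    rw [h2, avg, ← smul_sub]
    congr 1
    rw [← Finset.sum_sub_distrib, Finset.sum_range_sub (fun k => Ad (U ^ k) T)]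
    congr 1
  rw [h1, norm_smul, norm_inv, Complex.norm_natCast, div_eq_inv_mul]
  gcongr
  calc ‖Ad (U ^ (n + 1)) T - T‖ ≤ ‖Ad (U ^ (n + 1)) T‖ + ‖T‖ := norm_sub_le _ _
    _ ≤ ‖T‖ + ‖T‖ := by gcongr; exact norm_Ad_le _ _
    _ = 2 * ‖T‖ := by ring

theorem Ad_tendsto (𝒰 : Ultrafilter ℕ) (h𝒰 : (𝒰 : Filter ℕ) ≤ Filter.atTop)
    (U : H ≃ₗᵢ[ℂ] H) (T K : H →L[ℂ] H)
    (hK : ∀ x y, Filter.Tendsto (fun n => ⟪avg U T n x, y⟫_ℂ) 𝒰 (𝓝 ⟪K x, y⟫_ℂ)) :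
    Ad U K = K := by
  ext x
  refine ext_inner_right ℂ fun y => ?_
  have h1 : Filter.Tendsto (fun n => ⟪Ad U (avg U T n) x, y⟫_ℂ) 𝒰 (𝓝 ⟪Ad U K x, y⟫_ℂ) := by
    have := hK (U.symm x) (U.symm y)
    simp only [Ad_apply, inner_symm']
    exact this
  have h2 : Filter.Tendsto (fun n => ⟪Ad U (avg U T n) x, y⟫_ℂ - ⟪avg U T n x, y⟫_ℂ) 𝒰 (𝓝 0) := by
    refine Filter.Tendsto.mono_left ?_ h𝒰
    have h3 : Filter.Tendsto (fun n : ℕ => (2 * ‖T‖ * (‖x‖ * ‖y‖)) / ((n : ℝ) + 1))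
        Filter.atTop (𝓝 0) := by
      have := (tendsto_one_div_add_atTop_nhds_zero_nat (𝕜 := ℝ)).const_mul
        (2 * ‖T‖ * (‖x‖ * ‖y‖))
      rw [mul_zero] at this
      refine this.congr fun n => ?_
      ring
    refine squeeze_zero_norm (fun n => ?_) h3
    rw [← inner_sub_left, ← sub_apply]
    calc ‖⟪(Ad U (avg U T n) - avg U T n) x, y⟫_ℂ‖
        ≤ ‖(Ad U (avg U T n) - avg U T n) x‖ * ‖y‖ := norm_inner_le_norm _ _
      _ ≤ (‖Ad U (avg U T n) - avg U T n‖ * ‖x‖) * ‖y‖ := by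
        gcongr
        exact ContinuousLinearMap.le_opNorm _ _
      _ ≤ ((2 * ‖T‖ / (n + 1 : ℕ)) * ‖x‖) * ‖y‖ := by
        gcongr
        exact Ad_avg U T n
      _ = _ := by push_cast; ring
  have h4 := h1.sub h2
  simp only [sub_sub_cancel, sub_zero] at h4
  exact tendsto_nhds_unique h4 (hK x y)

end Pool.Agent.V7H75.WS
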