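import Pool.Agent.V7H75.WS.Defs

set_option autoImplicit false
set_option linter.unusedSectionVars false
set_option linter.unusedVariables false

open scoped InnerProductSpace ENNReal

namespace Pool.Agent.V7H75.WS

universe u

variable {H : Type u} [NormedAddCommGroup H] [InnerProductSpace ℂ H] [CompleteSpace H]

theorem adj_left (T : H →L[ℂ] H) (x y : H) : ⟪(star T) x, y⟫_ℂ = ⟪x, T y⟫_ℂ :=
  ContinuousLinearMap.adjoint_inner_left T y x

theorem adj_right (T : H →L[ℂ] H) (x y : H) : ⟪x, (star T) y⟫_ℂ = ⟪T x, y⟫_ℂ :=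
  ContinuousLinearMap.adjoint_inner_right T x y

/-- a projection commutes with an operator if its range is invariant under it and the adjoint -/
theorem proj_comm (K : Submodule ℂ H) [K.HasOrthogonalProjection] (T : H →L[ℂ] H)
    (h1 : ∀ x ∈ K, T x ∈ K) (h2 : ∀ x ∈ K, (star T) x ∈ K) (x : H) :
    K.starProjection (T x) = T (K.starProjection x) := by
  apply Submodule.eq_starProjection_of_mem_of_inner_eq_zero
  · exact h1 _ (K.starProjection_apply_mem x)
  · intro w hw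
    rw [← map_sub, ← adj_right T]
    exact Submodule.starProjection_inner_eq_zero _ _ (h2 w hw)

@[simp] theorem Ad_apply (U : H ≃ₗᵢ[ℂ] H) (T : H →L[ℂ] H) (x : H) :
    Ad U T x = U (T (U.symm x)) := rfl

namespace WSystem

variable (S : WSystem H)

theorem dense_ind {p : H → Prop} (hc : IsClosed {x | p x}) (h : ∀ a ∈ S.A, p (a S.Ω)) (x : H) :
    p x := by
  have h1 : {ξ : H | ∃ a ∈ S.A, a S.Ω = ξ} ⊆ {x | p x} := by
    rintro _ ⟨a, ha, rfl⟩
    exact h a ha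
  have h2 := hc.closure_subset_iff.2 h1
  rw [S.cyclic.closure_eq] at h2
  exact h2 (Set.mem_univ x)

theorem J_J (x : H) : S.J (S.J x) = x := by
  refine S.dense_ind (p := fun x => S.J (S.J x) = x)
    (isClosed_eq (S.J.continuous.comp S.J.continuous) continuous_id) (fun a ha => ?_) x
  rw [S.J_apply a ha, S.J_apply _ (star_mem ha), star_star]

theorem inner_J_J (x y : H) : ⟪S.J x, S.J y⟫_ℂ = ⟪y, x⟫_ℂ := by
  refine S.dense_ind (p := fun x => ⟪S.J x, S.J y⟫_ℂ = ⟪y, x⟫_ℂ)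
    (isClosed_eq (by fun_prop) (by fun_prop)) (fun a ha => ?_) x
  refine S.dense_ind (p := fun y => ⟪S.J (a S.Ω), S.J y⟫_ℂ = ⟪y, a S.Ω⟫_ℂ)
    (isClosed_eq (by fun_prop) (by fun_prop)) (fun b hb => ?_) y
  rw [S.J_apply a ha, S.J_apply b hb, adj_left, S.tracial a ha _ (star_mem hb), adj_right]

/-- right multiplication `J f* J` -/
noncomputable def R (f : H →L[ℂ] H) : H →L[ℂ] H :=
  ((S.J.toContinuousLinearEquiv : H →SL[starRingEnd ℂ] H).comp
    ((star f : H →L[ℂ] H).comp (S.J.toContinuousLinearEquiv : H →SL[starRingEnd ℂ] H)))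

theorem R_apply (f : H →L[ℂ] H) (x : H) : S.R f x = S.J ((star f) (S.J x)) := rfl

theorem R_Ω {f a : H →L[ℂ] H} (hf : f ∈ S.A) (ha : a ∈ S.A) : S.R f (a S.Ω) = a (f S.Ω) := by
  rw [R_apply, S.J_apply a ha]
  have h1 : (star f) ((star a) S.Ω) = (star (a * f)) S.Ω := by
    rw [star_mul]; rfl
  rw [h1, S.J_apply _ (star_mem (mul_mem ha hf)), star_star]
  rfl

theorem one_mem' (F : VonNeumannAlgebra H) : (1 : H →L[ℂ] H) ∈ F := one_mem F

theorem R_Ω' {f : H →L[ℂ] H} (hf : f ∈ S.A) : S.R f S.Ω = f S.Ω := by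
  have := S.R_Ω hf (one_mem' S.A)
  simpa using this

theorem R_comm {f a : H →L[ℂ] H} (hf : f ∈ S.A) (ha : a ∈ S.A) (x : H) :
    S.R f (a x) = a (S.R f x) := by
  refine S.dense_ind (p := fun x => S.R f (a x) = a (S.R f x))
    (isClosed_eq (by fun_prop) (by fun_prop)) (fun b hb => ?_) x
  have h1 : a (b S.Ω) = (a * b) S.Ω := rfl
  rw [h1, S.R_Ω hf (mul_mem ha hb), S.R_Ω hf hb]
  rfl

theorem R_adj (f : H →L[ℂ] H) (x y : H) : ⟪S.R f x, y⟫_ℂ = ⟪x, S.R (star f) y⟫_ℂ := by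
  rw [R_apply, R_apply, star_star]
  conv_lhs => rw [← S.J_J y, inner_J_J]
  conv_rhs => rw [← S.J_J x, inner_J_J]
  rw [adj_right]

theorem star_R (f : H →L[ℂ] H) : star (S.R f) = S.R (star f) := by
  ext x
  refine ext_inner_left ℂ fun y => ?_
  rw [adj_right, S.R_adj]

/-- the commutant of the right multiplications by `F` -/
def N (F : VonNeumannAlgebra H) : Set (H →L[ℂ] H) :=
  {T | ∀ f ∈ F, ∀ x, T (S.R f x) = S.R f (T x)}

variable {S} {F G : VonNeumannAlgebra H}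

theorem N_star {T : H →L[ℂ] H} (hT : T ∈ S.N F) : star T ∈ S.N F := by
  intro f hf x
  refine ext_inner_left ℂ fun y => ?_
  have h1 : ∀ z w, ⟪z, S.R f w⟫_ℂ = ⟪S.R (star f) z, w⟫_ℂ := fun z w => by
    rw [S.R_adj, star_star]
  calc ⟪y, (star T) (S.R f x)⟫_ℂ = ⟪T y, S.R f x⟫_ℂ := adj_right _ _ _
    _ = ⟪S.R (star f) (T y), x⟫_ℂ := h1 _ _
    _ = ⟪T (S.R (star f) y), x⟫_ℂ := by rw [hT _ (star_mem hf)]
    _ = ⟪S.R (star f) y, (star T) x⟫_ℂ := (adj_right _ _ _).symm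
    _ = ⟪y, S.R f ((star T) x)⟫_ℂ := (h1 _ _).symm

theorem N_mul {T T' : H →L[ℂ] H} (hT : T ∈ S.N F) (hT' : T' ∈ S.N F) : T * T' ∈ S.N F := by
  intro f hf x
  show T (T' (S.R f x)) = S.R f (T (T' x))
  rw [hT' f hf, hT f hf]

theorem N_mono (h : ∀ f ∈ F, f ∈ G) {T : H →L[ℂ] H} (hT : T ∈ S.N G) : T ∈ S.N F :=
  fun f hf x => hT f (h f hf) x

theorem A_sub_N (hF : S.IsSubsystem F) {a : H →L[ℂ] H} (ha : a ∈ S.A) : a ∈ S.N F :=
  fun f hf x => (S.R_comm (hF.le f hf) ha x).symm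

/-! ### the subspace `H_F` -/

theorem mem_sub {f : H →L[ℂ] H} (hf : f ∈ F) : f S.Ω ∈ S.sub F :=
  Submodule.le_topologicalClosure _ (Submodule.subset_span ⟨f, hf, rfl⟩)

theorem Ω_mem_sub : S.Ω ∈ S.sub F := by
  have := mem_sub (S := S) (one_mem' F)
  simpa using this

theorem sub_closed : IsClosed (S.sub F : Set H) := Submodule.isClosed_topologicalClosure _

theorem sub_ind {K : Submodule ℂ H} (hc : IsClosed (K : Set H)) (h : ∀ f ∈ F, f S.Ω ∈ K) :
    S.sub F ≤ K := by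
  refine Submodule.topologicalClosure_minimal _ (Submodule.span_le.2 ?_) hc
  rintro _ ⟨f, hf, rfl⟩
  exact h f hf

theorem sub_map {T : H →L[ℂ] H} (h : ∀ f ∈ F, T (f S.Ω) ∈ S.sub F) {x : H} (hx : x ∈ S.sub F) :
    T x ∈ S.sub F := by
  have h1 : S.sub F ≤ (S.sub F).comap (T : H →ₗ[ℂ] H) := by
    refine sub_ind ?_ h
    exact sub_closed.preimage T.continuous
  exact h1 hx

theorem J_sub (hF : S.IsSubsystem F) {x : H} (hx : x ∈ S.sub F) : S.J x ∈ S.sub F := by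
  have h1 : S.sub F ≤ (S.sub F).comap (S.J.toLinearEquiv : H →ₛₗ[starRingEnd ℂ] H) := by
    refine sub_ind ?_ ?_
    · exact sub_closed.preimage S.J.continuous
    · intro f hf
      show S.J (f S.Ω) ∈ S.sub F
      rw [S.J_apply f (hF.le f hf)]
      exact mem_sub (star_mem hf)
  exact h1 hx

theorem R_sub (hF : S.IsSubsystem F) {f : H →L[ℂ] H} (hf : f ∈ F) {x : H} (hx : x ∈ S.sub F) :
    S.R f x ∈ S.sub F := by
  refine sub_map (fun g hg => ?_) hx
  rw [S.R_Ω (hF.le f hf) (hF.le g hg)]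
  exact mem_sub (f := g * f) (mul_mem hg hf)

theorem e_mem_N (hF : S.IsSubsystem F) : S.e F ∈ S.N F := by
  intro f hf x
  refine proj_comm _ _ (fun x hx => R_sub hF hf hx) (fun x hx => ?_) x
  rw [star_R]
  exact R_sub hF (star_mem hf) hx

theorem e_Ω : S.e F S.Ω = S.Ω :=
  Submodule.starProjection_eq_self_iff.2 Ω_mem_sub

theorem star_e : star (S.e F) = S.e F := by
  ext x
  refine ext_inner_left ℂ fun y => ?_
  rw [adj_right]
  exact Submodule.inner_starProjection_left_eq_right _ _ _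

theorem e_mul_e : S.e F * S.e F = S.e F := Submodule.isIdempotentElem_starProjection _

theorem U_sub (hF : S.IsSubsystem F) {x : H} (hx : x ∈ S.sub F) : S.U x ∈ S.sub F := by
  refine sub_map (T := (S.U.toContinuousLinearEquiv : H →L[ℂ] H)) (fun g hg => ?_) hx
  have h1 : S.U.symm S.Ω = S.Ω := by
    rw [LinearIsometryEquiv.symm_apply_eq, S.U_Ω]
  have h2 : S.U (g S.Ω) = Ad S.U g S.Ω := by rw [Ad_apply, h1]
  show S.U (g S.Ω) ∈ _
  rw [h2]
  exact mem_sub (hF.U_mem g hg)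

theorem U_symm_sub (hF : S.IsSubsystem F) {x : H} (hx : x ∈ S.sub F) :
    S.U.symm x ∈ S.sub F := by
  refine sub_map (T := (S.U.symm.toContinuousLinearEquiv : H →L[ℂ] H)) (fun g hg => ?_) hx
  have h2 : S.U.symm (g S.Ω) = Ad S.U.symm g S.Ω := by
    rw [Ad_apply, LinearIsometryEquiv.symm_symm, S.U_Ω]
  show S.U.symm (g S.Ω) ∈ _
  rw [h2]
  exact mem_sub (hF.U_symm_mem g hg)

end WSystem

end Pool.Agent.V7H75.WS
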