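import Pool.Agent.V7H75.WS.Avg

set_option autoImplicit false
set_option linter.unusedSectionVars false
set_option linter.unusedVariables false

open scoped InnerProductSpace ENNReal Topology

namespace Pool.Agent.V7H75.WS

universe u

variable {H : Type u} [NormedAddCommGroup H] [InnerProductSpace ℂ H] [CompleteSpace H]

theorem spectral_cut (K : H →L[ℂ] H) (hK : 0 ≤ K) (hne : K ≠ 0) :
    ∃ (D : H →L[ℂ] H) (ε : ℝ), 0 < ε ∧ D ≠ 0 ∧ star D = D ∧
      (∀ T : H →L[ℂ] H, Commute K T → Commute D T) ∧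
      ∀ x, ε * ‖D x‖ ^ 2 ≤ (⟪K (D x), D x⟫_ℂ).re := by
  have hsa : IsSelfAdjoint K := .of_nonneg hK
  obtain ⟨ε, hεd⟩ : ∃ ε : ℝ, ε = ‖K‖ / 2 := ⟨_, rfl⟩
  have hε : 0 < ε := by
    rw [hεd]
    have := norm_pos_iff.2 hne
    positivity
  let f : ℝ → ℝ := fun t => max (t - ε) 0
  have hf : Continuous f := by fun_prop
  have hD0 : 0 ≤ cfc f K := cfc_nonneg (fun t _ => le_max_right _ _)
  have hne' : cfc f K ≠ 0 := by
    intro h
    have : Nontrivial (H →L[ℂ] H) := ⟨K, 0, hne⟩
    have h1 := CStarAlgebra.norm_mem_spectrum_of_nonneg (a := K)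
    have h2 : f ‖K‖ ∈ spectrum ℝ (cfc f K) := by
      rw [cfc_map_spectrum f K hsa hf.continuousOn]
      exact ⟨_, h1, rfl⟩
    rw [h, spectrum.zero_eq, Set.mem_singleton_iff] at h2
    have h3 : f ‖K‖ = ‖K‖ - ε := max_eq_left (by rw [hεd]; linarith [norm_nonneg K])
    rw [h3, hεd] at h2
    have := norm_pos_iff.2 hne
    linarith
  have hKD : K * cfc f K = ε • cfc f K + cfc f K * cfc f K := by
    have h1 : K * cfc f K = cfc (fun t => t * f t) K := by
      rw [cfc_mul (fun t => t) f K (by fun_prop) hf.continuousOn, cfc_id' ℝ K]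
    have h2 : ε • cfc f K + cfc f K * cfc f K = cfc (fun t => ε * f t + f t * f t) K := by
      rw [cfc_add _ _ _ (by fun_prop) (by fun_prop), cfc_mul f f K hf.continuousOn hf.continuousOn,
        cfc_const_mul ε f K hf.continuousOn]
    rw [h1, h2]
    congr 1
    funext t
    show t * max (t - ε) 0 = ε * max (t - ε) 0 + max (t - ε) 0 * max (t - ε) 0
    rcases le_total (t - ε) 0 with h | h
    · rw [max_eq_right h]; ring
    · rw [max_eq_left h]; ring
  refine ⟨cfc f K, ε, hε, hne', (IsSelfAdjoint.of_nonneg hD0).star_eq,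
    fun T hT => hT.cfc_real f, fun x => ?_⟩
  have h1 : K (cfc f K x) = (ε : ℂ) • cfc f K x + cfc f K (cfc f K x) := by
    have := congrArg (fun T : H →L[ℂ] H => T x) hKD
    exact this
  have h2 : 0 ≤ (⟪cfc f K (cfc f K x), cfc f K x⟫_ℂ).re :=
    ((ContinuousLinearMap.nonneg_iff_isPositive _).1 hD0).re_inner_nonneg_left _
  rw [h1, inner_add_left, Complex.add_re, inner_smul_left, Complex.conj_ofReal,
    Complex.re_ofReal_mul, re_self]
  linarith

namespace WSystem

variable {S : WSystem H} {F G : VonNeumannAlgebra H}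

theorem U_comm {K : H →L[ℂ] H} (hU : Ad S.U K = K) (x : H) : K (S.U x) = S.U (K x) := by
  conv_lhs => rw [← hU]
  rw [Ad_apply, LinearIsometryEquiv.symm_apply_apply]

/-- a nonzero invariant positive operator of finite trace below a closed subspace produces a nonzero
module inside this subspace -/
theorem cut {K : H →L[ℂ] H} (hK : 0 ≤ K) (hne : K ≠ 0)
    (hKN : K ∈ S.N G) (hU : Ad S.U K = K) (hfin : S.barMu G K < ⊤) (V0 : Submodule ℂ H)
    [V0.HasOrthogonalProjection] (hc : IsClosed (V0 : Set H)) (hV0 : V0 ≤ (S.sub G)ᗮ)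
    (h0 : ∀ x, K x ∈ V0) :
    ∃ V : Submodule ℂ H, S.IsModule G V ∧ V ≤ V0 ∧ V ≠ ⊥ := by
  obtain ⟨D, ε, hε, hD, hDs, hDc, hDe⟩ := spectral_cut K hK hne
  have hKs : star K = K := (IsSelfAdjoint.of_nonneg hK).star_eq
  have hKD : ∀ x, K (D x) = D (K x) := fun x =>
    (congrArg (fun T : H →L[ℂ] H => T x) (hDc K (Commute.refl K)).eq).symm
  have hDN : ∀ f ∈ G, ∀ x, D (S.R f x) = S.R f (D x) := by
    intro f hf x
    have h1 : Commute K (S.R f) := by
      ext y
      exact hKN f hf y
    exact congrArg (fun T : H →L[ℂ] H => T x) (hDc _ h1).eq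
  have hDU : ∀ x, D (S.U x) = S.U (D x) := by
    intro x
    have h1 : Commute K (S.U.toContinuousLinearEquiv : H →L[ℂ] H) := by
      ext y
      exact U_comm hU y
    exact congrArg (fun T : H →L[ℂ] H => T x) (hDc _ h1).eq
  have hDV0 : ∀ x, D x ∈ V0 := by
    intro x
    have h1 : D x ∈ V0ᗮᗮ := by
      rw [Submodule.mem_orthogonal]
      intro w hw
      have hKw : K w = 0 := by
        refine ext_inner_right ℂ fun y => ?_
        rw [inner_zero_left]
        conv_lhs => rw [← hKs]
        rw [adj_left]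
        have := (Submodule.mem_orthogonal _ _).1 hw (K y) (h0 y)
        rw [← inner_conj_symm, this, map_zero]
      have hDw : D w = 0 := by
        have h2 := hDe w
        rw [hKD, hKw, map_zero, inner_zero_left, Complex.zero_re] at h2
        have h3 : ‖D w‖ ^ 2 ≤ 0 := by
          by_contra hcon
          push Not at hcon
          have := mul_pos hε hcon
          linarith
        have h4 : ‖D w‖ = 0 := by
          have := sq_nonneg ‖D w‖
          exact pow_eq_zero_iff (two_ne_zero) |>.1 (le_antisymm h3 this)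
        exact norm_eq_zero.1 h4
      conv_lhs => rw [← hDs]
      rw [adj_right, hDw, inner_zero_left]
    rwa [Submodule.orthogonal_orthogonal] at h1
  set V : Submodule ℂ H := (LinearMap.range (D : H →ₗ[ℂ] H)).topologicalClosure with hVdef
  have hVc : IsClosed (V : Set H) := Submodule.isClosed_topologicalClosure _
  have hDV : ∀ x, D x ∈ V := fun x =>
    Submodule.le_topologicalClosure _ (LinearMap.mem_range_self (D : H →ₗ[ℂ] H) x)
  have hVind : ∀ {p : H → Prop}, IsClosed {x | p x} → (∀ x, p (D x)) → ∀ x ∈ V, p x := by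
    intro p hp h x hx
    have h1 : (LinearMap.range (D : H →ₗ[ℂ] H) : Set H) ⊆ {x | p x} := by
      rintro _ ⟨y, rfl⟩
      exact h y
    exact hp.closure_subset_iff.2 h1 hx
  have hVV0 : V ≤ V0 := fun x hx => hVind (p := fun x => x ∈ V0) hc hDV0 x hx
  have hVne : V ≠ ⊥ := by
    intro h
    apply hD
    ext x
    have := hDV x
    rw [h, Submodule.mem_bot] at this
    rw [this, zero_apply]
  have hVR : ∀ f ∈ G, ∀ x ∈ V, S.R f x ∈ V := by
    intro f hf x hx
    refine hVind (p := fun x => S.R f x ∈ V) (hVc.preimage (S.R f).continuous) (fun y => ?_) x hx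
    rw [← hDN f hf]
    exact hDV _
  have hVU : ∀ x ∈ V, S.U x ∈ V := by
    intro x hx
    refine hVind (p := fun x => S.U x ∈ V) (hVc.preimage S.U.continuous) (fun y => ?_) x hx
    rw [← hDU]
    exact hDV _
  have hVU' : ∀ x ∈ V, S.U.symm x ∈ V := by
    intro x hx
    refine hVind (p := fun x => S.U.symm x ∈ V) (hVc.preimage S.U.symm.continuous)
      (fun y => ?_) x hx
    have : S.U.symm (D y) = D (S.U.symm y) := by
      rw [LinearIsometryEquiv.symm_apply_eq, ← hDU, LinearIsometryEquiv.apply_symm_apply]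
    show S.U.symm (D y) ∈ V
    rw [this]
    exact hDV _
  have hVK : ∀ x ∈ V, K x ∈ V := by
    intro x hx
    refine hVind (p := fun x => K x ∈ V) (hVc.preimage K.continuous) (fun y => ?_) x hx
    rw [hKD]
    exact hDV _
  have hVe : ∀ x ∈ V, ε * ‖x‖ ^ 2 ≤ (⟪K x, x⟫_ℂ).re := by
    intro x hx
    refine hVind (p := fun x => ε * ‖x‖ ^ 2 ≤ (⟪K x, x⟫_ℂ).re) ?_ hDe x hx
    exact isClosed_le (by fun_prop) (Complex.continuous_re.comp (by fun_prop))
  refine ⟨V, ⟨hVc, fun f hf x hx => hVR f hf x hx, hVV0.trans hV0, ?_, ?_⟩, hVV0, hVne⟩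
  · apply le_antisymm
    · rintro _ ⟨x, hx, rfl⟩
      exact hVU x hx
    · intro x hx
      exact ⟨S.U.symm x, hVU' x hx, S.U.apply_symm_apply x⟩
  · set P := V.topologicalClosure.starProjection with hP
    have hVcl : V.topologicalClosure = V := hVc.submodule_topologicalClosure_eq
    have hVmem : ∀ x, x ∈ V.topologicalClosure → x ∈ V := fun x hx => by rwa [hVcl] at hx
    have hPK : ∀ x, P (K x) = K (P x) := by
      intro x
      refine proj_comm _ K (fun x hx => ?_) (fun x hx => ?_) x
      · rw [hVcl] at hx ⊢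
        exact hVK x hx
      · rw [hKs]
        rw [hVcl] at hx ⊢
        exact hVK x hx
    have hquad : ∀ x, (⟪x, P x⟫_ℂ).re ≤ ε⁻¹ * (⟪x, K x⟫_ℂ).re := by
      intro x
      have hPx : P x ∈ V := hVmem _ (Submodule.starProjection_apply_mem V.topologicalClosure x)
      have h1 : (⟪x, P x⟫_ℂ).re = ‖P x‖ ^ 2 := by
        have h2 : ⟪x, P x⟫_ℂ = ⟪P x, P x⟫_ℂ := by
          have h3 : P (P x) = P x := by
            rw [hP, Submodule.starProjection_eq_self_iff]
            exact Submodule.starProjection_apply_mem _ _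
          conv_lhs => rw [← h3]
          exact (Submodule.inner_starProjection_left_eq_right _ _ _).symm
        rw [h2, re_self]
      have h4 : (⟪x, K x⟫_ℂ).re = (⟪P x, K (P x)⟫_ℂ).re + (⟪x - P x, K (x - P x)⟫_ℂ).re := by
        have h5 : ⟪x - P x, K (P x)⟫_ℂ = 0 := by
          have h6 : K (P x) ∈ V.topologicalClosure := by
            rw [hVcl]
            exact hVK _ hPx
          exact Submodule.starProjection_inner_eq_zero _ _ h6
        have h7 : ⟪P x, K (x - P x)⟫_ℂ = 0 := by
          rw [← adj_left, hKs]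
          have h6 : K (P x) ∈ V.topologicalClosure := by
            rw [hVcl]
            exact hVK _ hPx
          rw [← inner_conj_symm]
          have : ⟪x - P x, K (P x)⟫_ℂ = 0 := h5
          rw [this, map_zero]
        have h8 : ⟪x, K x⟫_ℂ = ⟪P x + (x - P x), K (P x + (x - P x))⟫_ℂ := by
          rw [add_sub_cancel]
        rw [h8, map_add, inner_add_left, inner_add_right, inner_add_right, h5, h7, add_zero,
          zero_add, Complex.add_re]
      have h9 : 0 ≤ (⟪x - P x, K (x - P x)⟫_ℂ).re :=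
        ((ContinuousLinearMap.nonneg_iff_isPositive _).1 hK).re_inner_nonneg_right _
      have h10 := hVe _ hPx
      have h11 : (⟪K (P x), P x⟫_ℂ).re = (⟪P x, K (P x)⟫_ℂ).re := by
        rw [← inner_conj_symm, Complex.conj_re]
      rw [h11] at h10
      rw [h1, le_inv_mul_iff₀ hε]
      linarith
    refine lt_of_le_of_lt ?_ (ENNReal.mul_lt_top (ENNReal.ofReal_lt_top (r := ε⁻¹)) hfin)
    refine barMu_le fun n v hv => ?_
    calc ∑ i, ENNReal.ofReal (⟪v i S.Ω, P (v i S.Ω)⟫_ℂ).re
        ≤ ∑ i, ENNReal.ofReal ε⁻¹ * ENNReal.ofReal (⟪v i S.Ω, K (v i S.Ω)⟫_ℂ).re := by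
          refine Finset.sum_le_sum fun i _ => ?_
          rw [← ENNReal.ofReal_mul (by positivity)]
          exact ENNReal.ofReal_le_ofReal (hquad _)
      _ = ENNReal.ofReal ε⁻¹ * ∑ i, ENNReal.ofReal (⟪v i S.Ω, K (v i S.Ω)⟫_ℂ).re := by
          rw [Finset.mul_sum]
      _ ≤ _ := by
          gcongr
          exact sum_le_barMu hv

end WSystem

end Pool.Agent.V7H75.WS
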