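import Mathlib

set_option autoImplicit false

/-!
# W*-dynamical systems, subsystems and isometric extensions: definitions

Everything takes place on the Hilbert space `H` of the GNS representation of the system.
-/

open scoped InnerProductSpace ENNReal

namespace Pool.Agent.V7H75.WS

universe u

variable {H : Type u} [NormedAddCommGroup H] [InnerProductSpace ℂ H] [CompleteSpace H]

/-- `T ↦ U T U⁻¹` for a unitary `U`. -/
noncomputable def Ad (U : H ≃ₗᵢ[ℂ] H) (T : H →L[ℂ] H) : H →L[ℂ] H :=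
  (U.toContinuousLinearEquiv : H →L[ℂ] H) ∘L T ∘L (U.symm.toContinuousLinearEquiv : H →L[ℂ] H)

/-- A system `(A, μ, α)` on its GNS space: a von Neumann algebra `A` on `H` with a cyclic and
separating unit vector `Ω` whose vector state `μ` is a trace, and a unitary `U` with `U Ω = Ω` such
that `α = Ad U` maps `A` onto `A`; `J` is the modular conjugation, `J (a Ω) = a* Ω`. -/
structure WSystem (H : Type u) [NormedAddCommGroup H] [InnerProductSpace ℂ H]
    [CompleteSpace H] where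
  /-- the von Neumann algebra -/
  A : VonNeumannAlgebra H
  /-- the cyclic and separating vector -/
  Ω : H
  norm_Ω : ‖Ω‖ = 1
  cyclic : Dense {ξ : H | ∃ a ∈ A, a Ω = ξ}
  separating : ∀ a ∈ A, a Ω = 0 → a = 0
  tracial : ∀ a ∈ A, ∀ b ∈ A, ⟪Ω, a (b Ω)⟫_ℂ = ⟪Ω, b (a Ω)⟫_ℂ
  /-- the unitary which implements the automorphism -/
  U : H ≃ₗᵢ[ℂ] H
  U_Ω : U Ω = Ω
  U_mem : ∀ a ∈ A, Ad U a ∈ A
  U_symm_mem : ∀ a ∈ A, Ad U.symm a ∈ A
  /-- the modular conjugation -/
  J : H ≃ₗᵢ⋆[ℂ] H
  J_apply : ∀ a ∈ A, J (a Ω) = (star a) Ω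

namespace WSystem

variable (S : WSystem H)

/-- the trace `μ (a) = ⟨Ω, a Ω⟩` -/
noncomputable def μ (a : H →L[ℂ] H) : ℂ := ⟪S.Ω, a S.Ω⟫_ℂ

/-- `F` is a subsystem: a von Neumann subalgebra of `A` (with the same unit) with `α (F) = F`. -/
structure IsSubsystem (F : VonNeumannAlgebra H) : Prop where
  le : ∀ f ∈ F, f ∈ S.A
  U_mem : ∀ f ∈ F, Ad S.U f ∈ F
  U_symm_mem : ∀ f ∈ F, Ad S.U.symm f ∈ F

/-- the closed subspace `H_F` spanned by `F Ω` -/
noncomputable def sub (F : VonNeumannAlgebra H) : Submodule ℂ H :=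
  (Submodule.span ℂ {ξ : H | ∃ f ∈ F, f S.Ω = ξ}).topologicalClosure

noncomputable instance (F : VonNeumannAlgebra H) : (S.sub F).HasOrthogonalProjection := by
  unfold sub
  infer_instance

/-- the projection `e_F` onto `H_F` -/
noncomputable def e (F : VonNeumannAlgebra H) : H →L[ℂ] H := (S.sub F).starProjection

/-- the basic construction `⟨A, e_F⟩`: the von Neumann algebra generated by `A` and `e_F` -/
def basic (F : VonNeumannAlgebra H) : Set (H →L[ℂ] H) :=
  Set.centralizer (Set.centralizer ((S.A : Set (H →L[ℂ] H)) ∪ {S.e F}))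

/-- The trace of the basic construction: the supremum of `∑ i, ⟨v i Ω, T (v i Ω)⟩` over the finite
families in `⟨A, e_F⟩ e_F` with `∑ i, v i (v i)* ≤ 1`. -/
noncomputable def barMu (F : VonNeumannAlgebra H) (T : H →L[ℂ] H) : ℝ≥0∞ :=
  ⨆ (n : ℕ) (v : Fin n → (H →L[ℂ] H)) (_ : ∀ i, v i ∈ S.basic F) (_ : ∀ i, v i * S.e F = v i)
    (_ : ∑ i, v i * star (v i) ≤ 1), ∑ i, ENNReal.ofReal (⟪v i S.Ω, T (v i S.Ω)⟫_ℂ).re

/-- `V` is a `U`-`μ̄`-module: a closed right `F`-module in `H ⊖ H_F` with `U V = V` whose projection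
has finite trace. (The closure of `V` is `V`; it is written for the existence of the projection.) -/
def IsModule (F : VonNeumannAlgebra H) (V : Submodule ℂ H) : Prop :=
  IsClosed (V : Set H) ∧ (∀ f ∈ F, ∀ x ∈ V, S.J ((star f) (S.J x)) ∈ V) ∧ V ≤ (S.sub F)ᗮ ∧
    V.map (S.U.toLinearEquiv : H →ₗ[ℂ] H) = V ∧
    S.barMu F V.topologicalClosure.starProjection < ⊤

/-- the closed linear span `E_{A/F}` of all `U`-`μ̄`-modules -/
noncomputable def discr (F : VonNeumannAlgebra H) : Submodule ℂ H :=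
  (⨆ V ∈ {V : Submodule ℂ H | S.IsModule F V}, V).topologicalClosure

/-- the system is an isometric extension of the subsystem `F` -/
def IsIsometricExtension (F : VonNeumannAlgebra H) : Prop := S.discr F = (S.sub F)ᗮ

end WSystem

end Pool.Agent.V7H75.WS
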