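import Pool.Agent.V7H75.WS.Sym

set_option autoImplicit false
set_option linter.unusedSectionVars false
set_option linter.unusedVariables false

open scoped InnerProductSpace ENNReal

namespace Pool.Agent.V7H75.WS

universe u

variable {H : Type u} [NormedAddCommGroup H] [InnerProductSpace ℂ H] [CompleteSpace H]

theorem re_self {E : Type*} [NormedAddCommGroup E] [InnerProductSpace ℂ E] (x : E) :
    (⟪x, x⟫_ℂ).re = ‖x‖ ^ 2 :=
  inner_self_eq_norm_sq (𝕜 := ℂ) x

/-! ### the operator of a square-summable family -/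

section analysis

variable {ι : Type*} (v : ι → H →L[ℂ] H)
  (hv : ∀ (t : Finset ι) (x : H), ∑ i ∈ t, ‖(star (v i)) x‖ ^ 2 ≤ ‖x‖ ^ 2)

include hv

theorem bes_summable (x : H) : Summable fun i => ‖(star (v i)) x‖ ^ 2 :=
  summable_of_sum_le (fun i => by positivity) (fun t => hv t x)

theorem bes_mem (x : H) : Memℓp (fun i => (star (v i)) x) 2 := by
  refine memℓp_gen ?_
  have := bes_summable v hv x
  simpa using this

/-- `x ↦ (v i* x)` -/
noncomputable def besLin : H →ₗ[ℂ] lp (fun _ : ι => H) 2 where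
  toFun x := ⟨fun i => (star (v i)) x, bes_mem v hv x⟩
  map_add' x y := by
    ext i
    simp
  map_smul' c x := by
    ext i
    simp

theorem besLin_apply (x : H) (i : ι) :
    ((besLin v hv x : lp (fun _ : ι => H) 2) : ι → H) i = (star (v i)) x := rfl

theorem besLin_norm (x : H) : HasSum (fun i => ‖(star (v i)) x‖ ^ 2) (‖besLin v hv x‖ ^ 2) := by
  have h1 := lp.hasSum_inner (𝕜 := ℂ) (besLin v hv x) (besLin v hv x)
  have h2 := Complex.hasSum_re h1
  rw [re_self] at h2
  refine h2.congr_fun fun i => ?_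
  rw [re_self]
  rfl

theorem besLin_le (x : H) : ‖besLin v hv x‖ ≤ 1 * ‖x‖ := by
  rw [one_mul]
  refine le_of_sq_le_sq ?_ (norm_nonneg x)
  exact hasSum_le_of_sum_le (besLin_norm v hv x) (fun t => hv t x)

/-- the bounded operator `x ↦ (v i* x)` -/
noncomputable def bes : H →L[ℂ] lp (fun _ : ι => H) 2 :=
  (besLin v hv).mkContinuous 1 (besLin_le v hv)

theorem bes_norm (x : H) : HasSum (fun i => ‖(star (v i)) x‖ ^ 2) (‖bes v hv x‖ ^ 2) :=
  besLin_norm v hv x

theorem bes_inner (x y : H) :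
    HasSum (fun i => ⟪(star (v i)) x, (star (v i)) y⟫_ℂ) ⟪bes v hv x, bes v hv y⟫_ℂ :=
  lp.hasSum_inner (𝕜 := ℂ) (besLin v hv x) (besLin v hv y)

theorem bes_le (x : H) : ‖bes v hv x‖ ≤ ‖x‖ := by
  have := besLin_le v hv x
  rwa [one_mul] at this

/-- the defect `1 - ∑ v i v i*` -/
noncomputable def defect : H →L[ℂ] H :=
  1 - (ContinuousLinearMap.adjoint (bes v hv)) ∘L (bes v hv)

theorem defect_inner (x y : H) :
    ⟪x, defect v hv y⟫_ℂ = ⟪x, y⟫_ℂ - ⟪bes v hv x, bes v hv y⟫_ℂ := by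
  unfold defect
  rw [sub_apply, inner_sub_right, ContinuousLinearMap.comp_apply,
    ContinuousLinearMap.adjoint_inner_right]
  rfl

theorem defect_norm (x : H) : ‖defect v hv x‖ ^ 2 + ‖bes v hv x‖ ^ 2 ≤ ‖x‖ ^ 2 := by
  set y := (ContinuousLinearMap.adjoint (bes v hv)) (bes v hv x) with hy
  have h1 : defect v hv x = x - y := rfl
  have h2 : ‖y‖ ≤ ‖bes v hv x‖ := by
    have h3 : ‖ContinuousLinearMap.adjoint (bes v hv)‖ ≤ 1 := by
      rw [LinearIsometryEquiv.norm_map]
      exact (besLin v hv).mkContinuous_norm_le zero_le_one _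
    calc ‖y‖ ≤ ‖ContinuousLinearMap.adjoint (bes v hv)‖ * ‖bes v hv x‖ :=
          ContinuousLinearMap.le_opNorm _ _
      _ ≤ 1 * ‖bes v hv x‖ := by gcongr
      _ = _ := one_mul _
  have h4 : ‖x - y‖ ^ 2 = ‖x‖ ^ 2 - 2 * (⟪x, y⟫_ℂ).re + ‖y‖ ^ 2 := norm_sub_sq (𝕜 := ℂ) x y
  have h5 : (⟪x, y⟫_ℂ).re = ‖bes v hv x‖ ^ 2 := by
    rw [hy, ContinuousLinearMap.adjoint_inner_right, re_self]
  rw [h1, h4, h5]
  have h6 : ‖y‖ ^ 2 ≤ ‖bes v hv x‖ ^ 2 := by gcongr
  linarith

end analysis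

namespace WSystem

variable (S : WSystem H)

/-- a family in `⟨A, e_F⟩ e_F` with `∑ v i v i* ≤ 1` -/
structure Bessel (F : VonNeumannAlgebra H) {ι : Type*} (v : ι → H →L[ℂ] H) : Prop where
  basic : ∀ i, v i ∈ S.basic F
  e : ∀ i, v i * S.e F = v i
  le : ∀ x, ∑' i, ‖(star (v i)) x‖ₑ ^ 2 ≤ ‖x‖ₑ ^ 2

/-- a family in `⟨A, e_F⟩ e_F` with `∑ v i v i* = 1` -/
structure Frame (F : VonNeumannAlgebra H) {ι : Type*} (v : ι → H →L[ℂ] H) : Prop
    extends S.Bessel F v where
  eq : ∀ x, ∑' i, ‖(star (v i)) x‖ₑ ^ 2 = ‖x‖ₑ ^ 2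

variable {S} {F G : VonNeumannAlgebra H}

theorem defect_basic {ι : Type*} {v : ι → H →L[ℂ] H} (hb : ∀ i, v i ∈ S.basic F)
    (hv : ∀ (t : Finset ι) (x : H), ∑ i ∈ t, ‖(star (v i)) x‖ ^ 2 ≤ ‖x‖ ^ 2) :
    defect v hv ∈ S.basic F := by
  unfold basic
  rw [Set.mem_centralizer_iff]
  intro Z hZ
  have hc : ∀ (Z : H →L[ℂ] H), Z ∈ Set.centralizer ((S.A : Set (H →L[ℂ] H)) ∪ {S.e F}) →
      ∀ i x, (star (v i)) (Z x) = Z ((star (v i)) x) := by
    intro Z hZ i x
    have := Set.mem_centralizer_iff.1 (basic_star (hb i)) Z hZ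
    exact (congrArg (fun T : H →L[ℂ] H => T x) this).symm
  ext y
  refine ext_inner_left ℂ fun x => ?_
  show ⟪x, Z (defect v hv y)⟫_ℂ = ⟪x, defect v hv (Z y)⟫_ℂ
  rw [← adj_left, defect_inner, defect_inner, adj_left]
  congr 1
  have h1 := bes_inner v hv ((star Z) x) y
  have h2 := bes_inner v hv x (Z y)
  refine h1.unique (h2.congr_fun fun i => ?_)
  rw [hc _ (cent_star hZ), hc _ hZ, adj_left]

theorem exists_frame (S : WSystem H) (F : VonNeumannAlgebra H) :
    ∃ (ι : Type u) (v : ι → H →L[ℂ] H), S.Frame F v := by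
  classical
  let Good : Set (Set (ℕ × (H →L[ℂ] H))) := {s | (∀ p ∈ s, p.2 ∈ S.basic F ∧ p.2 * S.e F = p.2) ∧
    ∀ t : Finset (ℕ × (H →L[ℂ] H)), (t : Set (ℕ × (H →L[ℂ] H))) ⊆ s →
      ∀ x : H, ∑ p ∈ t, ‖(star p.2) x‖ ^ 2 ≤ ‖x‖ ^ 2}
  obtain ⟨s, hs⟩ : ∃ m, Maximal (· ∈ Good) m := by
    refine zorn_subset Good fun c hc hch => ?_
    rcases c.eq_empty_or_nonempty with rfl | hne
    · refine ⟨∅, ⟨by simp, fun t ht x => ?_⟩, by simp⟩
      have : t = ∅ := by
        rw [← Finset.coe_eq_empty]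
        exact Set.subset_empty_iff.1 ht
      subst this
      simp
    · refine ⟨⋃₀ c, ⟨?_, fun t ht x => ?_⟩, fun s hs => Set.subset_sUnion_of_mem hs⟩
      · rintro p ⟨s, hs, hp⟩
        exact (hc hs).1 p hp
      · obtain ⟨i, hi, hti⟩ := hch.directedOn.exists_mem_subset_of_finset_subset_biUnion hne
          (f := fun s => s) (s := t) (by rwa [← Set.sUnion_eq_biUnion])
        exact (hc hi).2 t hti x
  have hg : s ∈ Good := hs.prop
  let v : s → H →L[ℂ] H := fun p => p.1.2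
  have hv : ∀ (t : Finset s) (x : H), ∑ i ∈ t, ‖(star (v i)) x‖ ^ 2 ≤ ‖x‖ ^ 2 := by
    intro t x
    have := hg.2 (t.map (Function.Embedding.subtype _)) (by
      intro p hp
      simp only [Finset.coe_map, Set.mem_image, Finset.mem_coe] at hp
      obtain ⟨q, _, rfl⟩ := hp
      exact q.2) x
    rw [Finset.sum_map] at this
    exact this
  have hvb : ∀ i, v i ∈ S.basic F := fun i => (hg.1 i.1 i.2).1
  have hve : ∀ i, v i * S.e F = v i := fun i => (hg.1 i.1 i.2).2
  set D := defect v hv with hD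
  have hDb : D ∈ S.basic F := defect_basic hvb hv
  have hsub : ∀ (t : Finset (ℕ × (H →L[ℂ] H))), (t : Set (ℕ × (H →L[ℂ] H))) ⊆ s → ∀ x : H,
      ∑ p ∈ t, ‖(star p.2) x‖ ^ 2 ≤ ‖bes v hv x‖ ^ 2 := by
    intro t ht x
    have h1 := sum_le_hasSum (t.subtype (· ∈ s)) (fun i _ => by positivity) (bes_norm v hv x)
    refine le_trans (le_of_eq ?_) h1
    rw [← Finset.sum_subtype_of_mem (fun p : ℕ × (H →L[ℂ] H) => ‖(star p.2) x‖ ^ 2)
      (fun p hp => ht hp)]
  have hD0 : D = 0 := by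
    by_contra hne
    obtain ⟨a, ha, hDa⟩ : ∃ a ∈ S.A, D (a S.Ω) ≠ 0 := by
      by_contra hcon
      push Not at hcon
      apply hne
      ext x
      exact S.dense_ind (p := fun x => D x = 0) (isClosed_eq (by fun_prop) continuous_const)
        hcon x
    set c : ℝ := 1 / (‖a‖ + 1) with hc
    have hc0 : 0 < c := by positivity
    set w : H →L[ℂ] H := (c : ℂ) • (D * a * S.e F) with hw
    have hwb : w ∈ S.basic F := by
      unfold basic
      rw [Set.mem_centralizer_iff]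
      intro Z hZ
      have h1 : D * a * S.e F ∈ S.basic F := basic_mul (basic_mul hDb (A_basic ha)) e_basic
      have h2 := Set.mem_centralizer_iff.1 h1 Z hZ
      rw [hw, mul_smul_comm, smul_mul_assoc, h2]
    have hwe : w * S.e F = w := by
      rw [hw, smul_mul_assoc, mul_assoc, e_mul_e]
    have hwΩ : w S.Ω ≠ 0 := by
      have : w S.Ω = (c : ℂ) • D (a (S.e F S.Ω)) := rfl
      rw [this, e_Ω, smul_ne_zero_iff]
      exact ⟨by exact_mod_cast hc0.ne', hDa⟩
    have hwn : ∀ x, ‖(star w) x‖ ^ 2 ≤ ‖D x‖ ^ 2 := by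
      intro x
      have hDs : star D = D := by
        ext y
        refine ext_inner_left ℂ fun z => ?_
        rw [adj_right, hD, defect_inner, ← inner_conj_symm, defect_inner, map_sub,
          inner_conj_symm, inner_conj_symm]
      have h1 : (star w) x = (c : ℂ) • S.e F ((star a) (D x)) := by
        rw [hw, star_smul, star_mul, star_mul, star_e, hDs]
        simp
      have h2 : ‖(star w) x‖ ≤ ‖D x‖ := by
        rw [h1, norm_smul]
        have h3 : ‖S.e F ((star a) (D x))‖ ≤ ‖(star a) (D x)‖ :=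
          Submodule.norm_starProjection_apply_le _ _
        have h4 : ‖(star a) (D x)‖ ≤ ‖a‖ * ‖D x‖ := by
          have := ContinuousLinearMap.le_opNorm (star a) (D x)
          rwa [_root_.norm_star] at this
        have h5 : ‖(c : ℂ)‖ = c := by
          rw [Complex.norm_real, Real.norm_of_nonneg hc0.le]
        rw [h5]
        calc c * ‖S.e F ((star a) (D x))‖ ≤ c * (‖a‖ * ‖D x‖) := by gcongr; linarith
          _ = (c * ‖a‖) * ‖D x‖ := by ring
          _ ≤ 1 * ‖D x‖ := by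
            gcongr
            rw [hc, one_div, inv_mul_le_iff₀ (by positivity)]
            linarith [norm_nonneg a]
          _ = ‖D x‖ := one_mul _
      gcongr
    have hmem : ∀ n : ℕ, (n, w) ∈ s := by
      intro n
      have hins : insert (n, w) s ∈ Good := by
        refine ⟨?_, fun t ht x => ?_⟩
        · rintro p (rfl | hp)
          · exact ⟨hwb, hwe⟩
          · exact hg.1 p hp
        · have h1 : ((t.erase (n, w) : Finset (ℕ × (H →L[ℂ] H))) : Set (ℕ × (H →L[ℂ] H))) ⊆ s := by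
            intro p hp
            rw [Finset.coe_erase] at hp
            rcases ht hp.1 with h | h
            · exact absurd h hp.2
            · exact h
          have h2 := hsub _ h1 x
          have h3 : ∑ p ∈ t, ‖(star p.2) x‖ ^ 2 ≤
              ∑ p ∈ t.erase (n, w), ‖(star p.2) x‖ ^ 2 + ‖(star w) x‖ ^ 2 := by
            by_cases hm : (n, w) ∈ t
            · rw [← Finset.sum_erase_add _ _ hm]
            · rw [Finset.erase_eq_of_notMem hm]
              have : 0 ≤ ‖(star w) x‖ ^ 2 := by positivity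
              linarith
          have h4 := hwn x
          have h5 := defect_norm v hv x
          linarith
      exact hs.le_of_ge hins (Set.subset_insert _ _) (Set.mem_insert _ _)
    -- contradiction
    have hbd : ∀ N : ℕ, (N : ℝ) * ‖(star w) (w S.Ω)‖ ^ 2 ≤ ‖w S.Ω‖ ^ 2 := by
      intro N
      have h1 := hg.2 ((Finset.range N).image (fun n => (n, w))) (by
        intro p hp
        simp only [Finset.coe_image, Set.mem_image, Finset.mem_coe] at hp
        obtain ⟨n, _, rfl⟩ := hp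
        exact hmem n) (w S.Ω)
      rw [Finset.sum_image (by intro a _ b _ h; exact (Prod.mk.inj h).1)] at h1
      simpa using h1
    have hpos : 0 < ‖(star w) (w S.Ω)‖ ^ 2 := by
      have : (star w) (w S.Ω) ≠ 0 := by
        intro h0
        have h1 : ⟪S.Ω, (star w) (w S.Ω)⟫_ℂ = 0 := by rw [h0, inner_zero_right]
        rw [adj_right, inner_self_eq_zero] at h1
        exact hwΩ h1
      positivity
    obtain ⟨N, hN⟩ := exists_nat_gt (‖w S.Ω‖ ^ 2 / ‖(star w) (w S.Ω)‖ ^ 2)
    rw [div_lt_iff₀ hpos] at hN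
    linarith [hbd N]
  have heq : ∀ x, ∑' i, ‖(star (v i)) x‖ₑ ^ 2 = ‖x‖ₑ ^ 2 := by
    intro x
    have h1 := bes_norm v hv x
    have h2 : ‖bes v hv x‖ ^ 2 = ‖x‖ ^ 2 := by
      have h3 := defect_inner v hv x x
      rw [← hD, hD0, zero_apply, inner_zero_right] at h3
      have h4 := congrArg Complex.re (sub_eq_zero.1 h3.symm)
      rw [re_self, re_self] at h4
      exact h4.symm
    rw [h2] at h1
    have h5 : ∀ y : H, ‖y‖ₑ ^ 2 = ENNReal.ofReal (‖y‖ ^ 2) := fun y => by
      rw [← ofReal_norm, ENNReal.ofReal_pow (norm_nonneg _)]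
    simp_rw [h5]
    rw [← ENNReal.ofReal_tsum_of_nonneg (fun i => by positivity) h1.summable, h1.tsum_eq]
  exact ⟨s, v, ⟨hvb, hve, fun x => (heq x).le⟩, heq⟩

end WSystem

end Pool.Agent.V7H75.WS
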