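import Pool.Agent.V7H75.WS.Cut

set_option autoImplicit false
set_option linter.unusedSectionVars false
set_option linter.unusedVariables false

open scoped InnerProductSpace ENNReal Topology

namespace Pool.Agent.V7H75.WS

universe u

variable {H : Type u} [NormedAddCommGroup H] [InnerProductSpace ℂ H] [CompleteSpace H]

theorem orth_inv (V : Submodule ℂ H) (T : H →L[ℂ] H) (h : ∀ x ∈ V, (star T) x ∈ V) {x : H}
    (hx : x ∈ Vᗮ) : T x ∈ Vᗮ := by
  rw [Submodule.mem_orthogonal] at hx ⊢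
  intro u hu
  rw [← adj_left]
  exact hx _ (h u hu)

theorem Ad_pow_fix {U : H ≃ₗᵢ[ℂ] H} {Q : H →L[ℂ] H} (h : Ad U Q = Q) (k : ℕ) :
    Ad (U ^ k) Q = Q := by
  induction k with
  | zero => rfl
  | succ n ih =>
    have h1 : Ad (U ^ (n + 1)) Q = Ad (U ^ n) (Ad U Q) := by
      rw [pow_succ]; rfl
    rw [h1, h, ih]

theorem Ad_fix_symm {W : H ≃ₗᵢ[ℂ] H} {Q : H →L[ℂ] H} (h : Ad W Q = Q) (x : H) :
    Q (W.symm x) = W.symm (Q x) := by
  conv_rhs => rw [← h, Ad_apply]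
  rw [LinearIsometryEquiv.symm_apply_apply]

theorem Ad_star_mul (W : H ≃ₗᵢ[ℂ] H) (X : H →L[ℂ] H) (x : H) :
    ⟪Ad W (star X * X) x, x⟫_ℂ = ((‖X (W.symm x)‖ ^ 2 : ℝ) : ℂ) := by
  rw [Ad_apply, inner_symm']
  have : ⟪(star X * X) (W.symm x), W.symm x⟫_ℂ = ⟪X (W.symm x), X (W.symm x)⟫_ℂ :=
    adj_left X (X (W.symm x)) (W.symm x)
  rw [this, inner_self_eq_norm_sq_to_K]
  push_cast
  rfl

theorem avg_quad (U : H ≃ₗᵢ[ℂ] H) (X : H →L[ℂ] H) (n : ℕ) (x : H) :
    ⟪avg U (star X * X) n x, x⟫_ℂ =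
      ((((n + 1 : ℕ) : ℝ)⁻¹ * ∑ k ∈ Finset.range (n + 1), ‖X ((U ^ k).symm x)‖ ^ 2 : ℝ) : ℂ) := by
  rw [avg_apply, inner_smul_left, sum_inner]
  simp_rw [Ad_star_mul]
  push_cast
  simp

namespace WSystem

variable {S : WSystem H} {F G : VonNeumannAlgebra H}

theorem proj_N {V : Submodule ℂ H} [V.HasOrthogonalProjection]
    (h : ∀ f ∈ F, ∀ x ∈ V, S.R f x ∈ V) : V.starProjection ∈ S.N F := by
  intro f hf x
  refine proj_comm V (S.R f) (h f hf) (fun x hx => ?_) x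
  rw [star_R]
  exact h _ (star_mem hf) x hx

theorem proj_U {V : Submodule ℂ H} [V.HasOrthogonalProjection]
    (h1 : ∀ x ∈ V, S.U x ∈ V) (h2 : ∀ x ∈ V, S.U.symm x ∈ V) :
    Ad S.U V.starProjection = V.starProjection := by
  ext x
  rw [Ad_apply]
  have := proj_comm V (S.U.toContinuousLinearEquiv : H →L[ℂ] H) h1 (fun x hx => by
    rw [star_W]; exact h2 x hx) (S.U.symm x)
  have h3 : V.starProjection (S.U (S.U.symm x)) = S.U (V.starProjection (S.U.symm x)) := this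
  rw [← h3, LinearIsometryEquiv.apply_symm_apply]

theorem star_proj (V : Submodule ℂ H) [V.HasOrthogonalProjection] :
    star V.starProjection = V.starProjection := by
  ext x
  refine ext_inner_left ℂ fun y => ?_
  rw [adj_right]
  exact Submodule.inner_starProjection_left_eq_right _ _ _

theorem N_one : (1 : H →L[ℂ] H) ∈ S.N F := fun f hf x => rfl

theorem N_avg (hG : S.IsSubsystem G) {T : H →L[ℂ] H} (hT : T ∈ S.N G) (n : ℕ) :
    avg S.U T n ∈ S.N G := by
  intro f hf x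
  rw [avg_apply, avg_apply, map_smul, map_sum]
  congr 1
  refine Finset.sum_congr rfl fun k _ => ?_
  exact N_Ad hG ((sym_U hG).pow k) hT f hf x

/-- the invariant positive operator obtained from averaging `X* X` for `X = e_G a* Q` -/
theorem exists_K (hG : S.IsSubsystem G) {Q : H →L[ℂ] H} (hQN : Q ∈ S.N G) (hQU : Ad S.U Q = Q)
    (hQs : star Q = Q) (hQQ : Q * Q = Q) {a : H →L[ℂ] H} (ha : a ∈ S.A) :
    ∃ K : H →L[ℂ] H, 0 ≤ K ∧ K ∈ S.N G ∧ Ad S.U K = K ∧ S.barMu G K < ⊤ ∧ (∀ x, Q (K x) = K x) ∧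
      ∀ (ι : Type u) (t : Finset ι) (y : ι → H) (c : ℝ),
        (∀ k : ℕ, c ≤ ∑ i ∈ t, ‖(S.e G * star a * Q) ((S.U ^ k).symm (y i))‖ ^ 2) →
          c ≤ ∑ i ∈ t, (⟪K (y i), y i⟫_ℂ).re := by
  obtain ⟨X, hX⟩ : ∃ X, X = S.e G * star a * Q := ⟨_, rfl⟩
  have hXN : X ∈ S.N G := by
    rw [hX]
    exact N_mul (N_mul (e_mem_N hG) (N_star (A_sub_N hG ha))) hQN
  have hTN : star X * X ∈ S.N G := N_mul (N_star hXN) hXN
  obtain ⟨K, hK⟩ := exists_weak_lim (Filter.hyperfilter ℕ) (avg S.U (star X * X)) ‖star X * X‖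
    (fun n => norm_avg_le _ _ _)
  have hQX : ∀ k x, Q (Ad (S.U ^ k) (star X * X) x) = Ad (S.U ^ k) (star X * X) x := by
    intro k x
    have h1 : Q * (star X * X) = star X * X := by
      rw [← mul_assoc]
      congr 1
      rw [hX, star_mul, hQs, ← mul_assoc, hQQ]
    have h2 : Ad (S.U ^ k) (Q * (star X * X)) = Q * Ad (S.U ^ k) (star X * X) := by
      rw [Ad_mul, Ad_pow_fix hQU]
    rw [h1] at h2
    exact (congrArg (fun T : H →L[ℂ] H => T x) h2).symm
  have hquad : ∀ x, Filter.Tendsto (fun n : ℕ => ((n + 1 : ℕ) : ℝ)⁻¹ *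
      ∑ k ∈ Finset.range (n + 1), ‖X ((S.U ^ k).symm x)‖ ^ 2)
      (Filter.hyperfilter ℕ : Filter ℕ) (𝓝 (⟪K x, x⟫_ℂ).re) := by
    intro x
    have h1 := (Complex.continuous_re.tendsto _).comp (hK x x)
    refine h1.congr fun n => ?_
    show (⟪avg S.U (star X * X) n x, x⟫_ℂ).re = _
    rw [avg_quad, Complex.ofReal_re]
  have hnn : ∀ x, 0 ≤ (⟪K x, x⟫_ℂ).re := fun x =>
    ge_of_tendsto' (hquad x) (fun n => by positivity)
  have him : ∀ x, (⟪K x, x⟫_ℂ).im = 0 := by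
    intro x
    have h1 := (Complex.continuous_im.tendsto _).comp (hK x x)
    refine tendsto_nhds_unique h1 ?_
    refine tendsto_const_nhds.congr fun n => ?_
    show 0 = (⟪avg S.U (star X * X) n x, x⟫_ℂ).im
    rw [avg_quad, Complex.ofReal_im]
  have hK0 : 0 ≤ K := by
    rw [ContinuousLinearMap.nonneg_iff_isPositive, ContinuousLinearMap.isPositive_iff_complex]
    intro x
    refine ⟨?_, hnn x⟩
    apply Complex.ext
    · simp
    · simp [him x]
  refine ⟨K, hK0, ?_, Ad_tendsto _ (Nat.hyperfilter_le_atTop) S.U _ K hK, ?_, ?_, ?_⟩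
  · intro f hf x
    refine ext_inner_right ℂ fun y => ?_
    rw [S.R_adj]
    have h1 := hK (S.R f x) y
    have h2 := hK x (S.R (star f) y)
    refine tendsto_nhds_unique h1 (h2.congr fun n => ?_)
    rw [N_avg hG hTN n f hf, S.R_adj]
  · refine lt_of_le_of_lt (barMu_le (C := ‖(star X) S.Ω‖ₑ ^ 2) fun n w hw => ?_) ?_
    · have h1 : ∀ k : ℕ, ∑ i, ‖X ((S.U ^ k).symm (w i S.Ω))‖ ^ 2 ≤ ‖(star X) S.Ω‖ ^ 2 := by
        intro k
        have hs := ((sym_U hG).pow k).symm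
        have h2 := tsum_star_le hG (bessel_Ad hw hs) (N_star hXN) (by
          rw [hX, star_mul, star_mul, star_e, mul_assoc, mul_assoc, e_mul_e])
        rw [tsum_fintype, star_star] at h2
        simp_rw [sq_enorm] at h2
        rw [← ENNReal.ofReal_sum_of_nonneg (fun i _ => by positivity),
          ENNReal.ofReal_le_ofReal_iff (by positivity)] at h2
        refine le_trans (le_of_eq ?_) h2
        refine Finset.sum_congr rfl fun i _ => ?_
        rw [W_Ω hs]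
      have h3 : ∑ i, (⟪w i S.Ω, K (w i S.Ω)⟫_ℂ).re ≤ ‖(star X) S.Ω‖ ^ 2 := by
        have h4 := tendsto_finsetSum (Finset.univ : Finset (Fin n))
          (fun i _ => hquad (w i S.Ω))
        have h5 : ∑ i, (⟪w i S.Ω, K (w i S.Ω)⟫_ℂ).re = ∑ i, (⟪K (w i S.Ω), w i S.Ω⟫_ℂ).re := by
          refine Finset.sum_congr rfl fun i _ => ?_
          rw [← inner_conj_symm, Complex.conj_re]
        rw [h5]
        refine le_of_tendsto' h4 fun m => ?_
        rw [← Finset.mul_sum, Finset.sum_comm, inv_mul_le_iff₀ (by positivity)]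
        calc ∑ k ∈ Finset.range (m + 1), ∑ i, ‖X ((S.U ^ k).symm (w i S.Ω))‖ ^ 2
            ≤ ∑ k ∈ Finset.range (m + 1), ‖(star X) S.Ω‖ ^ 2 :=
              Finset.sum_le_sum fun k _ => h1 k
          _ = _ := by simp
      have h6 : ∀ i, 0 ≤ (⟪w i S.Ω, K (w i S.Ω)⟫_ℂ).re := fun i => by
        rw [← inner_conj_symm, Complex.conj_re]
        exact hnn _
      rw [← ENNReal.ofReal_sum_of_nonneg (fun i _ => h6 i), sq_enorm]
      exact ENNReal.ofReal_le_ofReal h3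
    · rw [sq_enorm]
      exact ENNReal.ofReal_lt_top
  · intro x
    refine ext_inner_right ℂ fun y => ?_
    have h0 : ⟪Q (K x), y⟫_ℂ = ⟪K x, Q y⟫_ℂ := by
      conv_lhs => rw [← hQs]
      rw [adj_left]
    rw [h0]
    refine tendsto_nhds_unique (hK x (Q y)) ((hK x y).congr fun n => ?_)
    have h1 : Q (avg S.U (star X * X) n x) = avg S.U (star X * X) n x := by
      rw [avg_apply, map_smul, map_sum]
      congr 1
      exact Finset.sum_congr rfl fun k _ => hQX k x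
    conv_lhs => rw [← h1]
    conv_lhs => rw [← hQs]
    rw [adj_left]
  · intro ι t y c hc
    rw [← hX] at hc
    have h4 := tendsto_finsetSum t (fun i _ => hquad (y i))
    refine ge_of_tendsto' h4 fun m => ?_
    rw [← Finset.mul_sum, Finset.sum_comm, le_inv_mul_iff₀ (by positivity)]
    calc ((m + 1 : ℕ) : ℝ) * c = ∑ k ∈ Finset.range (m + 1), c := by simp
      _ ≤ _ := Finset.sum_le_sum fun k _ => hc k

end WSystem

end Pool.Agent.V7H75.WS
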