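import Pool.Agent.V7H75.WS.Limit

set_option autoImplicit false
set_option linter.unusedSectionVars false
set_option linter.unusedVariables false

open scoped InnerProductSpace ENNReal Topology

namespace Pool.Agent.V7H75.WS

universe u

variable {H : Type u} [NormedAddCommGroup H] [InnerProductSpace ℂ H] [CompleteSpace H]

namespace WSystem

variable {S : WSystem H} {F G : VonNeumannAlgebra H}

theorem discr_closed : IsClosed (S.discr F : Set H) := Submodule.isClosed_topologicalClosure _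

theorem module_le_discr {V : Submodule ℂ H} (hV : S.IsModule F V) : V ≤ S.discr F :=
  le_trans (le_iSup₂ (f := fun (V : Submodule ℂ H) (_ : V ∈ {V | S.IsModule F V}) => V) V hV)
    (Submodule.le_topologicalClosure _)

theorem discr_ind {K : Submodule ℂ H} (hc : IsClosed (K : Set H))
    (h : ∀ V, S.IsModule F V → V ≤ K) : S.discr F ≤ K :=
  Submodule.topologicalClosure_minimal _ (iSup₂_le h) hc

theorem discr_le : S.discr F ≤ (S.sub F)ᗮ :=
  discr_ind (Submodule.isClosed_orthogonal _) (fun V hV => hV.2.2.1)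

theorem discr_map {T : H →L[ℂ] H} (h : ∀ V, S.IsModule F V → ∀ x ∈ V, T x ∈ V) {x : H}
    (hx : x ∈ S.discr F) : T x ∈ S.discr F := by
  have h1 : S.discr F ≤ (S.discr F).comap (T : H →ₗ[ℂ] H) :=
    discr_ind (discr_closed.preimage T.continuous)
      (fun V hV x hx => module_le_discr hV (h V hV x hx))
  exact h1 hx

theorem module_U {V : Submodule ℂ H} (hV : S.IsModule F V) {x : H} (hx : x ∈ V) : S.U x ∈ V := by
  have h1 : S.U x ∈ V.map (S.U.toLinearEquiv : H →ₗ[ℂ] H) := ⟨x, hx, rfl⟩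
  rwa [hV.2.2.2.1] at h1

theorem module_U_symm {V : Submodule ℂ H} (hV : S.IsModule F V) {x : H} (hx : x ∈ V) :
    S.U.symm x ∈ V := by
  have h1 : x ∈ V.map (S.U.toLinearEquiv : H →ₗ[ℂ] H) := by rwa [hV.2.2.2.1]
  obtain ⟨y, hy, rfl⟩ := h1
  have : S.U.symm (S.U y) = y := LinearIsometryEquiv.symm_apply_apply _ _
  show S.U.symm (S.U y) ∈ V
  rwa [this]

theorem module_R {V : Submodule ℂ H} (hV : S.IsModule F V) {f : H →L[ℂ] H} (hf : f ∈ F) {x : H}
    (hx : x ∈ V) : S.R f x ∈ V :=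
  hV.2.1 f hf x hx

/-- an intermediate subsystem of an isometric extension -/
theorem main (hF : S.IsSubsystem F) (hG : S.IsSubsystem G) (hFG : ∀ f ∈ F, f ∈ G)
    (hiso : S.IsIsometricExtension F) : S.IsIsometricExtension G := by
  have hFGs : S.sub F ≤ S.sub G := sub_ind sub_closed fun f hf => mem_sub (hFG f hf)
  have hNmono : ∀ T, T ∈ S.N G → T ∈ S.N F := fun T hT => N_mono hFG hT
  set V0 : Submodule ℂ H := (S.sub G)ᗮ ⊓ (S.discr G)ᗮ with hV0def
  have hV0c : IsClosed (V0 : Set H) :=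
    (Submodule.isClosed_orthogonal _).inter (Submodule.isClosed_orthogonal _)
  have : CompleteSpace V0 := hV0c.completeSpace_coe
  have : CompleteSpace (S.discr G) := discr_closed.completeSpace_coe
  -- it is enough that `V0` is zero
  suffices hbot : V0 = ⊥ by
    refine le_antisymm discr_le fun x hx => ?_
    have h1 : x - (S.discr G).starProjection x ∈ V0 := by
      refine ⟨Submodule.sub_mem _ hx (discr_le (Submodule.starProjection_apply_mem _ _)), ?_⟩
      exact Submodule.sub_starProjection_mem_orthogonal x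
    rw [hbot, Submodule.mem_bot, sub_eq_zero] at h1
    rw [h1]
    exact Submodule.starProjection_apply_mem _ _
  by_contra hne
  -- invariance of `V0`
  have hsR : ∀ f ∈ G, ∀ x ∈ V0, S.R f x ∈ V0 := by
    intro f hf x hx
    refine ⟨orth_inv _ _ (fun y hy => ?_) hx.1, orth_inv _ _ (fun y hy => ?_) hx.2⟩
    · rw [star_R]
      exact R_sub hG (star_mem hf) hy
    · rw [star_R]
      exact discr_map (fun V hV x hx => module_R hV (star_mem hf) hx) hy
  have hsU : ∀ x ∈ V0, S.U x ∈ V0 := by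
    intro x hx
    refine ⟨orth_inv _ (S.U.toContinuousLinearEquiv : H →L[ℂ] H) (fun y hy => ?_) hx.1,
      orth_inv _ (S.U.toContinuousLinearEquiv : H →L[ℂ] H) (fun y hy => ?_) hx.2⟩
    · rw [star_W]
      exact U_symm_sub hG hy
    · rw [star_W]
      exact discr_map (T := (S.U.symm.toContinuousLinearEquiv : H →L[ℂ] H))
        (fun V hV x hx => module_U_symm hV hx) hy
  have hsU' : ∀ x ∈ V0, S.U.symm x ∈ V0 := by
    intro x hx
    refine ⟨orth_inv _ (S.U.symm.toContinuousLinearEquiv : H →L[ℂ] H) (fun y hy => ?_) hx.1,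
      orth_inv _ (S.U.symm.toContinuousLinearEquiv : H →L[ℂ] H) (fun y hy => ?_) hx.2⟩
    · rw [star_W]
      exact U_sub hG hy
    · rw [star_W]
      exact discr_map (T := (S.U.toContinuousLinearEquiv : H →L[ℂ] H))
        (fun V hV x hx => module_U hV hx) hy
  obtain ⟨Q, hQ⟩ : ∃ Q, Q = V0.starProjection := ⟨_, rfl⟩
  have hQN : Q ∈ S.N G := by rw [hQ]; exact proj_N hsR
  have hQU : Ad S.U Q = Q := by rw [hQ]; exact proj_U hsU hsU'
  have hQs : star Q = Q := by rw [hQ]; exact star_proj V0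
  have hQQ : Q * Q = Q := by rw [hQ]; exact Submodule.isIdempotentElem_starProjection _
  have hQmem : ∀ x, Q x ∈ V0 := fun x => by rw [hQ]; exact Submodule.starProjection_apply_mem _ _
  have hQfix : ∀ x, x ∈ V0 → Q x = x := fun x hx => by
    rw [hQ]; exact Submodule.starProjection_eq_self_iff.2 hx
  -- a module over `F` which is not orthogonal to `V0`
  obtain ⟨V, hV, x, hxV, hQx⟩ : ∃ V, S.IsModule F V ∧ ∃ x ∈ V, Q x ≠ 0 := by
    by_contra hcon
    push Not at hcon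
    have h1 : S.discr F ≤ LinearMap.ker (Q : H →ₗ[ℂ] H) :=
      discr_ind Q.isClosed_ker fun V hV x hx => hcon V hV x hx
    apply hne
    rw [Submodule.eq_bot_iff]
    intro x hx
    have h2 : x ∈ (S.sub F)ᗮ := Submodule.orthogonal_le hFGs hx.1
    rw [← hiso] at h2
    rw [← hQfix x hx]
    exact h1 h2
  obtain ⟨P, hP⟩ : ∃ P, P = V.topologicalClosure.starProjection := ⟨_, rfl⟩
  have hVcl : V.topologicalClosure = V := hV.1.submodule_topologicalClosure_eq
  have hVmem : ∀ x, x ∈ V.topologicalClosure ↔ x ∈ V := fun x => by rw [hVcl]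
  have hPN : P ∈ S.N F := by
    rw [hP]
    refine proj_N fun f hf x hx => ?_
    rw [hVmem] at hx ⊢
    exact module_R hV hf hx
  have hPU : Ad S.U P = P := by
    rw [hP]
    refine proj_U (fun x hx => ?_) (fun x hx => ?_)
    · rw [hVmem] at hx ⊢
      exact module_U hV hx
    · rw [hVmem] at hx ⊢
      exact module_U_symm hV hx
  have hPs : star P = P := by rw [hP]; exact star_proj _
  have hPP : P * P = P := by rw [hP]; exact Submodule.isIdempotentElem_starProjection _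
  have hPfix : ∀ x, x ∈ V → P x = x := fun x hx => by
    rw [hP]; exact Submodule.starProjection_eq_self_iff.2 ((hVmem x).2 hx)
  have hPfin : S.barMu F P < ⊤ := by rw [hP]; exact hV.2.2.2.2
  obtain ⟨ι, v, hv⟩ := exists_frame S F
  have hPsum : ∑' i, ‖P (v i S.Ω)‖ₑ ^ 2 < ⊤ := by
    rw [← barMu_eq hF hv hPN, hPs, hPP]
    exact hPfin
  -- a vector of the frame which is not killed by `Q P`
  obtain ⟨i0, hi0⟩ : ∃ i, Q (P (v i S.Ω)) ≠ 0 := by
    by_contra hcon
    push Not at hcon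
    have h1 : ∀ i, Q * P * v i = 0 := by
      intro i
      have h2 : ∀ z ∈ S.sub F, (Q * P * v i) z = 0 := by
        have h3 : S.sub F ≤ LinearMap.ker ((Q * P * v i : H →L[ℂ] H) : H →ₗ[ℂ] H) := by
          refine sub_ind (Q * P * v i : H →L[ℂ] H).isClosed_ker fun f hf => ?_
          have hN : Q * P * v i ∈ S.N F :=
            N_mul (N_mul (hNmono _ hQN) hPN) (basic_N hF (hv.basic i))
          show (Q * P * v i) (f S.Ω) = 0
          rw [← S.R_Ω' (hF.le f hf), hN f hf]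
          have : (Q * P * v i) S.Ω = 0 := hcon i
          rw [this, map_zero]
        exact fun z hz => h3 hz
      rw [← hv.e i]
      ext z
      show (Q * P * v i) (S.e F z) = 0
      exact h2 _ (Submodule.starProjection_apply_mem _ _)
    have h4 : ∀ y, P (Q y) = 0 := by
      intro y
      have h5 := hv.eq (P (Q y))
      have h6 : ∑' i, ‖(star (v i)) (P (Q y))‖ₑ ^ 2 = 0 := by
        rw [ENNReal.tsum_eq_zero]
        intro i
        have h7 : star (Q * P * v i) = 0 := by rw [h1, star_zero]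
        rw [star_mul, star_mul, hPs, hQs] at h7
        have h8 : (star (v i)) (P (Q y)) = 0 := congrArg (fun T : H →L[ℂ] H => T y) h7
        rw [h8]
        simp
      rw [h6] at h5
      have h9 := pow_eq_zero_iff (two_ne_zero) |>.1 h5.symm
      rwa [enorm_eq_zero] at h9
    apply hQx
    have h11 : Q (Q x) = Q x := congrArg (fun T : H →L[ℂ] H => T x) hQQ
    have h12 : ⟪(star Q) x, Q x⟫_ℂ = ⟪x, Q (Q x)⟫_ℂ := adj_left Q x (Q x)
    have h13 : ⟪(star P) x, Q x⟫_ℂ = ⟪x, P (Q x)⟫_ℂ := adj_left P x (Q x)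
    rw [hQs, h11] at h12
    rw [hPs, hPfix x hxV, h4, inner_zero_right] at h13
    rw [h13] at h12
    exact inner_self_eq_zero.1 h12
  obtain ⟨a, ha, hai⟩ : ∃ a ∈ S.A, ⟪a S.Ω, Q (P (v i0 S.Ω))⟫_ℂ ≠ 0 := by
    by_contra hcon
    push Not at hcon
    apply hi0
    refine ext_inner_left ℂ fun y => ?_
    rw [inner_zero_right]
    exact S.dense_ind (p := fun y => ⟪y, Q (P (v i0 S.Ω))⟫_ℂ = 0)
      (isClosed_eq (by fun_prop) continuous_const) hcon y
  obtain ⟨X, hX⟩ : ∃ X, X = S.e G * star a * Q := ⟨_, rfl⟩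
  have hXN : X ∈ S.N F := by
    rw [hX]
    exact hNmono _ (N_mul (N_mul (e_mem_N hG) (N_star (A_sub_N hG ha))) hQN)
  have hX0 : X (P (v i0 S.Ω)) ≠ 0 := by
    intro h
    apply hai
    have h1 : S.e G S.Ω = S.Ω := e_Ω
    have h2 : ⟪S.Ω, X (P (v i0 S.Ω))⟫_ℂ = ⟪a S.Ω, Q (P (v i0 S.Ω))⟫_ℂ := by
      have h3 : X (P (v i0 S.Ω)) = S.e G ((star a) (Q (P (v i0 S.Ω)))) := by rw [hX]; rfl
      rw [h3]
      have h4 : ⟪S.Ω, S.e G ((star a) (Q (P (v i0 S.Ω))))⟫_ℂ =
          ⟪S.e G S.Ω, (star a) (Q (P (v i0 S.Ω)))⟫_ℂ :=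
        (Submodule.inner_starProjection_left_eq_right _ _ _).symm
      rw [h4, h1, adj_right]
    rw [← h2, h, inner_zero_right]
  obtain ⟨K, hK0, hKN, hKU, hKfin, hKQ, hKlim⟩ := exists_K hG hQN hQU hQs hQQ ha
  rw [← hX] at hKlim
  -- real sums
  have hsum : ∀ {g : ι → H}, (∑' i, ‖g i‖ₑ ^ 2 < ⊤) →
      HasSum (fun i => ‖g i‖ ^ 2) (∑' i, ‖g i‖ₑ ^ 2).toReal := by
    intro g hg
    have h1 := ENNReal.hasSum_toReal hg.ne
    rw [ENNReal.tsum_toReal_eq (fun i => (ENNReal.ne_top_of_tsum_ne_top hg.ne i))]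
    refine h1.congr_fun fun i => ?_
    rw [sq_enorm, ENNReal.toReal_ofReal (by positivity)]
  have hXb : ∀ y, ‖X y‖ ^ 2 ≤ ‖X‖ ^ 2 * ‖y‖ ^ 2 := fun y => by
    rw [← mul_pow]
    exact pow_le_pow_left₀ (norm_nonneg _) (X.le_opNorm y) 2
  obtain ⟨B, hB⟩ : ∃ B, HasSum (fun i => ‖X‖ ^ 2 * ‖P (v i S.Ω)‖ ^ 2) B :=
    ⟨_, (hsum hPsum).mul_left _⟩
  have hXsum : Summable fun i => ‖X (P (v i S.Ω))‖ ^ 2 :=
    Summable.of_nonneg_of_le (fun i => by positivity) (fun i => hXb _) hB.summable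
  obtain ⟨c0, hc0⟩ : ∃ c0, HasSum (fun i => ‖X (P (v i S.Ω))‖ ^ 2) c0 := ⟨_, hXsum.hasSum⟩
  have hc0pos : 0 < c0 := by
    have h1 : ‖X (P (v i0 S.Ω))‖ ^ 2 ≤ c0 :=
      le_hasSum hc0 i0 (fun j _ => by positivity)
    have h2 : 0 < ‖X (P (v i0 S.Ω))‖ ^ 2 := by
      have := norm_pos_iff.2 hX0
      positivity
    linarith
  have hXk : ∀ k : ℕ, HasSum (fun i => ‖X ((S.U ^ k).symm (P (v i S.Ω)))‖ ^ 2) c0 := by
    intro k
    have hs := ((sym_U hF).pow k).symm
    have h1 := tsum_frame_eq hF hv (frame_Ad hv hs) (N_mul hXN hPN)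
    have h2 : ∀ i, ‖(X * P) (Ad (S.U ^ k).symm (v i) S.Ω)‖ₑ =
        ‖X ((S.U ^ k).symm (P (v i S.Ω)))‖ₑ := by
      intro i
      rw [← W_Ω hs]
      have h3 : (X * P) ((S.U ^ k).symm (v i S.Ω)) = X (P ((S.U ^ k).symm (v i S.Ω))) := rfl
      rw [h3, Ad_fix_symm (Ad_pow_fix hPU k)]
    simp_rw [h2] at h1
    have h4 : ∑' i, ‖(X * P) (v i S.Ω)‖ₑ ^ 2 = ENNReal.ofReal c0 := by
      rw [← hc0.tsum_eq, ENNReal.ofReal_tsum_of_nonneg (fun i => by positivity) hc0.summable]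
      exact tsum_congr fun i => sq_enorm _
    rw [h4] at h1
    have h5 := hsum (g := fun i => X ((S.U ^ k).symm (P (v i S.Ω)))) (by
      rw [h1]; exact ENNReal.ofReal_lt_top)
    rw [h1, ENNReal.toReal_ofReal hc0pos.le] at h5
    exact h5
  -- uniform tails
  obtain ⟨t, ht⟩ : ∃ t : Finset ι, B - c0 / 2 < ∑ i ∈ t, ‖X‖ ^ 2 * ‖P (v i S.Ω)‖ ^ 2 := by
    have h1 := hB.eventually (lt_mem_nhds (show B - c0 / 2 < B by linarith))
    exact h1.exists
  have hlow : ∀ k : ℕ, c0 / 2 ≤ ∑ i ∈ t, ‖X ((S.U ^ k).symm (P (v i S.Ω)))‖ ^ 2 := by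
    intro k
    have h1 := hB.sub (hXk k)
    have h2 : ∑ i ∈ t, (‖X‖ ^ 2 * ‖P (v i S.Ω)‖ ^ 2 -
        ‖X ((S.U ^ k).symm (P (v i S.Ω)))‖ ^ 2) ≤ B - c0 := by
      refine sum_le_hasSum t (fun i _ => ?_) h1
      have h3 := hXb ((S.U ^ k).symm (P (v i S.Ω)))
      rw [LinearIsometryEquiv.norm_map] at h3
      linarith
    rw [Finset.sum_sub_distrib] at h2
    linarith
  have hKt := hKlim ι t (fun i => P (v i S.Ω)) (c0 / 2) hlow
  have hKne : K ≠ 0 := by
    rintro rfl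
    simp at hKt
    linarith
  have hKV0 : ∀ x, K x ∈ V0 := fun x => by rw [← hKQ]; exact hQmem _
  obtain ⟨W, hW, hWV0, hWne⟩ := cut hK0 hKne hKN hKU hKfin V0 hV0c inf_le_left hKV0
  apply hWne
  rw [Submodule.eq_bot_iff]
  intro y hy
  have h1 := module_le_discr hW hy
  have h2 := (hWV0 hy).2
  exact inner_self_eq_zero.1 ((Submodule.mem_orthogonal _ _).1 h2 y h1)

end WSystem

end Pool.Agent.V7H75.WS
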