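import Pool.Agent.V7H75.WS.Main

set_option autoImplicit false
set_option linter.unusedSectionVars false
set_option linter.unusedVariables false

open scoped InnerProductSpace ENNReal NNReal Topology

namespace Pool.Agent.V7H75.WS

universe u

variable {H : Type u} [NormedAddCommGroup H] [InnerProductSpace ℂ H] [CompleteSpace H]

theorem nonneg_re {T : H →L[ℂ] H} (hT : 0 ≤ T) (x : H) : 0 ≤ (⟪x, T x⟫_ℂ).re :=
  ((ContinuousLinearMap.nonneg_iff_isPositive _).1 hT).re_inner_nonneg_right x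

theorem star_nonneg {T : H →L[ℂ] H} (hT : 0 ≤ T) : star T = T := (IsSelfAdjoint.of_nonneg hT).star_eq

namespace WSystem

/-- `τ` has the properties of the canonical trace of the basic construction `⟨A, e_F⟩`, on the
commutant `S.N F` of the right multiplications by `F`, which contains `⟨A, e_F⟩`: additive,
positively homogeneous, tracial, faithful, normal, semifinite, and `τ (a e_F a*) = μ (a a*)`. -/
structure IsCanonicalTrace (S : WSystem H) (F : VonNeumannAlgebra H)
    (τ : (H →L[ℂ] H) → ℝ≥0∞) : Prop where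
  add : ∀ T ∈ S.N F, ∀ T' ∈ S.N F, 0 ≤ T → 0 ≤ T' → τ (T + T') = τ T + τ T'
  smul : ∀ T ∈ S.N F, 0 ≤ T → ∀ c : ℝ, 0 ≤ c → τ ((c : ℂ) • T) = ENNReal.ofReal c * τ T
  trace : ∀ x ∈ S.N F, τ (star x * x) = τ (x * star x)
  faithful : ∀ T ∈ S.N F, 0 ≤ T → τ T = 0 → T = 0
  normal : ∀ (I : Type u) [Nonempty I] (T : I → H →L[ℂ] H) (T' : H →L[ℂ] H),
    (∀ i, T i ∈ S.N F ∧ 0 ≤ T i) → T' ∈ S.N F → Directed (· ≤ ·) T →
    (∀ x, IsLUB (Set.range fun i => (⟪x, T i x⟫_ℂ).re) (⟪x, T' x⟫_ℂ).re) → τ T' = ⨆ i, τ (T i)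
  semifinite : ∀ T ∈ S.N F, 0 ≤ T → T ≠ 0 →
    ∃ T' ∈ S.N F, 0 ≤ T' ∧ T' ≤ T ∧ T' ≠ 0 ∧ τ T' < ⊤
  ext : ∀ a ∈ S.A, τ (a * S.e F * star a) = ENNReal.ofReal (S.μ (a * star a)).re

variable {S : WSystem H} {F G : VonNeumannAlgebra H}

theorem sqrt_N {T : H →L[ℂ] H} (hT : T ∈ S.N F) : CFC.sqrt T ∈ S.N F := by
  intro f hf x
  have h1 : Commute T (S.R f) := by
    ext y
    exact hT f hf y
  have h2 : Commute (CFC.sqrt T) (S.R f) := h1.cfcₙ_nnreal _
  exact congrArg (fun T : H →L[ℂ] H => T x) h2.eq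

theorem exists_sqrt {T : H →L[ℂ] H} (hT : T ∈ S.N F) (h0 : 0 ≤ T) :
    ∃ Y ∈ S.N F, star Y = Y ∧ Y * Y = T :=
  ⟨CFC.sqrt T, sqrt_N hT, star_nonneg (CFC.sqrt_nonneg T), CFC.sqrt_mul_sqrt_self T h0⟩

theorem barMu_eq' (hF : S.IsSubsystem F) {ι : Type*} {v : ι → H →L[ℂ] H} (hv : S.Frame F v)
    {T : H →L[ℂ] H} (hT : T ∈ S.N F) (h0 : 0 ≤ T) :
    S.barMu F T = ∑' i, ENNReal.ofReal (⟪v i S.Ω, T (v i S.Ω)⟫_ℂ).re := by
  obtain ⟨Y, hY, hYs, hYY⟩ := exists_sqrt hT h0
  have h1 := barMu_eq hF hv hY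
  have h2 : star Y * Y = T := by rw [hYs, hYY]
  rw [h2] at h1
  rw [h1]
  refine tsum_congr fun i => ?_
  rw [← h2, ofReal_star_mul]

/-- an operator of `S.N F` is zero if it is zero on all vectors of a frame -/
theorem eq_zero_of_frame (hF : S.IsSubsystem F) {ι : Type*} {v : ι → H →L[ℂ] H}
    (hv : S.Frame F v) {Y : H →L[ℂ] H} (hY : Y ∈ S.N F) (h : ∀ i, Y (v i S.Ω) = 0) : Y = 0 := by
  have h1 : ∀ i, Y * v i = 0 := by
    intro i
    have h3 : S.sub F ≤ LinearMap.ker ((Y * v i : H →L[ℂ] H) : H →ₗ[ℂ] H) := by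
      refine sub_ind (Y * v i : H →L[ℂ] H).isClosed_ker fun f hf => ?_
      have hN : Y * v i ∈ S.N F := N_mul hY (basic_N hF (hv.basic i))
      show (Y * v i) (f S.Ω) = 0
      rw [← S.R_Ω' (hF.le f hf), hN f hf]
      have : (Y * v i) S.Ω = 0 := h i
      rw [this, map_zero]
    rw [← hv.e i]
    ext z
    show (Y * v i) (S.e F z) = 0
    exact h3 (Submodule.starProjection_apply_mem _ _)
  have h4 : star Y = 0 := by
    ext y
    have h5 := hv.eq ((star Y) y)
    have h6 : ∑' i, ‖(star (v i)) ((star Y) y)‖ₑ ^ 2 = 0 := by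
      rw [ENNReal.tsum_eq_zero]
      intro i
      have h7 : star (Y * v i) = 0 := by rw [h1, star_zero]
      rw [star_mul] at h7
      have h8 : (star (v i)) ((star Y) y) = 0 := congrArg (fun T : H →L[ℂ] H => T y) h7
      rw [h8]
      simp
    rw [h6] at h5
    have h9 := pow_eq_zero_iff (two_ne_zero) |>.1 h5.symm
    rwa [enorm_eq_zero] at h9
  rw [← star_star Y, h4, star_zero]

theorem N_add {T T' : H →L[ℂ] H} (hT : T ∈ S.N F) (hT' : T' ∈ S.N F) : T + T' ∈ S.N F := by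
  intro f hf x
  rw [add_apply, add_apply, hT f hf, hT' f hf, map_add]

theorem N_smul {T : H →L[ℂ] H} (hT : T ∈ S.N F) (c : ℂ) : c • T ∈ S.N F := by
  intro f hf x
  rw [smul_apply, smul_apply, hT f hf, map_smul]

theorem isCanonicalTrace (hF : S.IsSubsystem F) : S.IsCanonicalTrace F (S.barMu F) := by
  obtain ⟨ι, v, hv⟩ := exists_frame S F
  have hfai : ∀ T ∈ S.N F, 0 ≤ T → S.barMu F T = 0 → T = 0 := by
    intro T hT h0 h
    obtain ⟨Y, hY, hYs, hYY⟩ := exists_sqrt hT h0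
    have h1 := barMu_eq hF hv hY
    rw [hYs, hYY, h, eq_comm, ENNReal.tsum_eq_zero] at h1
    have h2 : Y = 0 := eq_zero_of_frame hF hv hY fun i => by
      have := pow_eq_zero_iff (two_ne_zero) |>.1 (h1 i)
      rwa [enorm_eq_zero] at this
    rw [← hYY, h2, mul_zero]
  refine ⟨fun T hT T' hT' h0 h0' => ?_, fun T hT h0 c hc => ?_, fun x hx => ?_, hfai, ?_, ?_, ?_⟩
  · rw [barMu_eq' hF hv (N_add hT hT') (add_nonneg h0 h0'), barMu_eq' hF hv hT h0,
      barMu_eq' hF hv hT' h0', ← ENNReal.tsum_add]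
    refine tsum_congr fun i => ?_
    rw [add_apply, inner_add_right, Complex.add_re,
      ENNReal.ofReal_add (nonneg_re h0 _) (nonneg_re h0' _)]
  · have h1 : 0 ≤ (c : ℂ) • T := by
      rw [ContinuousLinearMap.nonneg_iff_isPositive, ContinuousLinearMap.isPositive_iff_complex]
      intro x
      have h2 := (ContinuousLinearMap.isPositive_iff_complex T).1
        ((ContinuousLinearMap.nonneg_iff_isPositive _).1 h0) x
      rw [smul_apply, inner_smul_left, Complex.conj_ofReal]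
      refine ⟨?_, ?_⟩
      · rw [← h2.1]
        simp
      · rw [← h2.1]
        have := mul_nonneg hc h2.2
        simpa using this
    rw [barMu_eq' hF hv (N_smul hT _) h1, barMu_eq' hF hv hT h0, ← ENNReal.tsum_mul_left]
    refine tsum_congr fun i => ?_
    rw [smul_apply, inner_smul_right, Complex.re_ofReal_mul, ENNReal.ofReal_mul hc]
  · have h1 := barMu_eq hF hv (N_star hx)
    rw [star_star] at h1
    rw [barMu_eq hF hv hx, h1, tsum_frame_star hF hv hv hx]
  · intro I _ T T' hT hT' hd hL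
    refine le_antisymm (barMu_le fun n w hw => ?_) (iSup_le fun i => ?_)
    · have h1 : ∀ x, ENNReal.ofReal (⟪x, T' x⟫_ℂ).re =
          ⨆ i, ENNReal.ofReal (⟪x, T i x⟫_ℂ).re := by
        intro x
        have h2 := hL x
        refine le_antisymm ?_ (iSup_le fun i => ENNReal.ofReal_le_ofReal (h2.1 ⟨i, rfl⟩))
        refine le_of_forall_lt fun b hb => ?_
        have hbt : b ≠ ⊤ := (lt_trans hb ENNReal.ofReal_lt_top).ne
        have h3 : b.toReal < (⟪x, T' x⟫_ℂ).re := (ENNReal.lt_ofReal_iff_toReal_lt hbt).1 hb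
        obtain ⟨_, ⟨i, rfl⟩, hi⟩ := (lt_isLUB_iff h2).1 h3
        exact lt_of_lt_of_le ((ENNReal.lt_ofReal_iff_toReal_lt hbt).2 hi)
          (le_iSup (fun i => ENNReal.ofReal (⟪x, T i x⟫_ℂ).re) i)
      simp_rw [h1]
      rw [ENNReal.finsetSum_iSup]
      · exact iSup_mono fun i => sum_le_barMu hw
      · intro i j
        obtain ⟨k, hik, hjk⟩ := hd i j
        have h4 : ∀ {T T' : H →L[ℂ] H}, T ≤ T' → ∀ x,
            ENNReal.ofReal (⟪x, T x⟫_ℂ).re ≤ ENNReal.ofReal (⟪x, T' x⟫_ℂ).re := by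
          intro T T' h x
          refine ENNReal.ofReal_le_ofReal ?_
          have := nonneg_re (sub_nonneg.2 h) x
          rw [sub_apply, inner_sub_right, Complex.sub_re] at this
          linarith
        exact ⟨k, fun a => ⟨h4 hik _, h4 hjk _⟩⟩
    · refine barMu_le fun n w hw => le_trans (Finset.sum_le_sum fun j _ => ?_) (sum_le_barMu hw)
      exact ENNReal.ofReal_le_ofReal ((hL _).1 ⟨i, rfl⟩)
  · intro T hT h0 hne
    obtain ⟨Y, hY, hYs, hYY⟩ := exists_sqrt hT h0
    obtain ⟨i, hi⟩ : ∃ i, Y (v i S.Ω) ≠ 0 := by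
      by_contra hcon
      push Not at hcon
      apply hne
      rw [← hYY, eq_zero_of_frame hF hv hY hcon, mul_zero]
    have hyN : Y * v i ∈ S.N F := N_mul hY (basic_N hF (hv.basic i))
    have hye : Y * v i * S.e F = Y * v i := by rw [mul_assoc, hv.e]
    refine ⟨(Y * v i) * star (Y * v i), N_mul hyN (N_star hyN), mul_star_self_nonneg _, ?_, ?_, ?_⟩
    · have h1 : Y * v i * star (Y * v i) = Y * (v i * star (v i)) * Y := by
        rw [star_mul, hYs]
        simp only [mul_assoc]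
      rw [h1, ContinuousLinearMap.le_def, ContinuousLinearMap.isPositive_def']
      constructor
      · unfold IsSelfAdjoint
        rw [star_sub, star_nonneg h0, star_mul, star_mul, star_mul, star_star, hYs]
        simp only [mul_assoc]
      · intro x
        show 0 ≤ (⟪(T - Y * (v i * star (v i)) * Y) x, x⟫_ℂ).re
        have h2 : (T - Y * (v i * star (v i)) * Y) x = Y (Y x) - Y (v i ((star (v i)) (Y x))) := by
          rw [← hYY]; rfl
        have h3 : ∀ z, ⟪Y z, x⟫_ℂ = ⟪z, Y x⟫_ℂ := fun z => by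
          conv_lhs => rw [← hYs]
          rw [adj_left]
        have h5 := hv.le (Y x)
        have h6 : ‖(star (v i)) (Y x)‖ₑ ^ 2 ≤ ‖Y x‖ₑ ^ 2 := le_trans (ENNReal.le_tsum i) h5
        rw [sq_enorm, sq_enorm, ENNReal.ofReal_le_ofReal_iff (by positivity)] at h6
        rw [h2, inner_sub_left, Complex.sub_re, h3, h3, ← adj_right (v i), re_self, re_self]
        linarith
    · intro h
      have h1 : (star (Y * v i)) ((Y * v i) S.Ω) = 0 := by
        rw [(CStarRing.mul_star_self_eq_zero_iff _).1 h, zero_apply, map_zero]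
      apply hi
      have h3 : ⟪S.Ω, (star (Y * v i)) ((Y * v i) S.Ω)⟫_ℂ = 0 := by rw [h1, inner_zero_right]
      rw [adj_right, inner_self_eq_zero] at h3
      exact h3
    · have h1 := barMu_eq hF hv (N_star hyN)
      rw [star_star] at h1
      rw [h1, tsum_star_eq hF hv hyN hye, sq_enorm]
      exact ENNReal.ofReal_lt_top
  · intro a ha
    have hyN : a * S.e F ∈ S.N F := N_mul (A_sub_N hF ha) (e_mem_N hF)
    have hye : a * S.e F * S.e F = a * S.e F := by rw [mul_assoc, e_mul_e]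
    have h1 := barMu_eq hF hv (N_star hyN)
    rw [star_star] at h1
    have h2 : a * S.e F * star a = a * S.e F * star (a * S.e F) := by
      rw [star_mul, star_e, mul_assoc, mul_assoc, ← mul_assoc (S.e F) (S.e F), e_mul_e]
    rw [h2, h1, tsum_star_eq hF hv hyN hye, sq_enorm]
    congr 1
    have h3 : (a * S.e F) S.Ω = a S.Ω := by
      show a (S.e F S.Ω) = _
      rw [e_Ω]
    rw [h3, ← re_self]
    unfold μ
    congr 1
    have h4 := S.tracial a ha _ (star_mem ha)
    rw [← adj_right, ← h4]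
    rfl

end WSystem

end Pool.Agent.V7H75.WS
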