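import Pool.Agent.V7H75.WS.Basic

set_option autoImplicit false
set_option linter.unusedSectionVars false
set_option linter.unusedVariables false

open scoped InnerProductSpace ENNReal

namespace Pool.Agent.V7H75.WS

universe u

variable {H : Type u} [NormedAddCommGroup H] [InnerProductSpace ℂ H] [CompleteSpace H]

theorem Ad_mul (W : H ≃ₗᵢ[ℂ] H) (S T : H →L[ℂ] H) : Ad W (S * T) = Ad W S * Ad W T := by
  ext x
  simp [Ad_apply]

theorem Ad_Ad_symm (W : H ≃ₗᵢ[ℂ] H) (T : H →L[ℂ] H) : Ad W (Ad W.symm T) = T := by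
  ext x
  simp [Ad_apply]

theorem Ad_symm_Ad (W : H ≃ₗᵢ[ℂ] H) (T : H →L[ℂ] H) : Ad W.symm (Ad W T) = T := by
  ext x
  simp [Ad_apply]

theorem inner_symm (W : H ≃ₗᵢ[ℂ] H) (x y : H) : ⟪W.symm x, y⟫_ℂ = ⟪x, W y⟫_ℂ := by
  rw [← W.inner_map_map (W.symm x) y, LinearIsometryEquiv.apply_symm_apply]

theorem inner_symm' (W : H ≃ₗᵢ[ℂ] H) (x y : H) : ⟪W x, y⟫_ℂ = ⟪x, W.symm y⟫_ℂ := by
  rw [← W.inner_map_map x (W.symm y), LinearIsometryEquiv.apply_symm_apply]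

theorem star_Ad (W : H ≃ₗᵢ[ℂ] H) (T : H →L[ℂ] H) : star (Ad W T) = Ad W (star T) := by
  ext x
  refine ext_inner_left ℂ fun y => ?_
  rw [adj_right, Ad_apply, Ad_apply, inner_symm', ← adj_right, inner_symm]

theorem star_W (W : H ≃ₗᵢ[ℂ] H) (x : H) :
    (star (W.toContinuousLinearEquiv : H →L[ℂ] H)) x = W.symm x := by
  refine ext_inner_left ℂ fun y => ?_
  rw [adj_right]
  exact inner_symm' W y x

namespace WSystem

variable (S : WSystem H)

/-- a unitary which is a symmetry of the system and of the subalgebra `F` -/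
structure Sym (F : VonNeumannAlgebra H) (W : H ≃ₗᵢ[ℂ] H) : Prop where
  map_Ω : W S.Ω = S.Ω
  map_A : ∀ a ∈ S.A, Ad W a ∈ S.A
  symm_A : ∀ a ∈ S.A, Ad W.symm a ∈ S.A
  map_F : ∀ a ∈ F, Ad W a ∈ F
  symm_F : ∀ a ∈ F, Ad W.symm a ∈ F

variable {S} {F G : VonNeumannAlgebra H}

theorem sym_U (hF : S.IsSubsystem F) : S.Sym F S.U :=
  ⟨S.U_Ω, S.U_mem, S.U_symm_mem, hF.U_mem, hF.U_symm_mem⟩

theorem Sym.symm {W : H ≃ₗᵢ[ℂ] H} (h : S.Sym F W) : S.Sym F W.symm :=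
  ⟨by rw [LinearIsometryEquiv.symm_apply_eq, h.map_Ω], h.symm_A, by simpa using h.map_A, h.symm_F,
    by simpa using h.map_F⟩

theorem Sym.one : S.Sym F 1 :=
  ⟨rfl, fun a ha => ha, fun a ha => ha, fun a ha => ha, fun a ha => ha⟩

theorem Sym.mul {W W' : H ≃ₗᵢ[ℂ] H} (h : S.Sym F W) (h' : S.Sym F W') : S.Sym F (W * W') := by
  refine ⟨?_, fun a ha => h.map_A _ (h'.map_A _ ha), fun a ha => h'.symm_A _ (h.symm_A _ ha),
    fun a ha => h.map_F _ (h'.map_F _ ha), fun a ha => h'.symm_F _ (h.symm_F _ ha)⟩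
  show W (W' S.Ω) = S.Ω
  rw [h'.map_Ω, h.map_Ω]

theorem Sym.pow {W : H ≃ₗᵢ[ℂ] H} (h : S.Sym F W) (k : ℕ) : S.Sym F (W ^ k) := by
  induction k with
  | zero => simpa using Sym.one
  | succ n ih => rw [pow_succ]; exact ih.mul h

theorem W_Ω {W : H ≃ₗᵢ[ℂ] H} (h : S.Sym F W) (a : H →L[ℂ] H) :
    W (a S.Ω) = Ad W a S.Ω := by
  rw [Ad_apply, h.symm.map_Ω]

theorem W_sub {W : H ≃ₗᵢ[ℂ] H} (h : S.Sym F W) {x : H} (hx : x ∈ S.sub F) :
    W x ∈ S.sub F := by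
  refine sub_map (T := (W.toContinuousLinearEquiv : H →L[ℂ] H)) (fun g hg => ?_) hx
  show W (g S.Ω) ∈ _
  rw [W_Ω h]
  exact mem_sub (h.map_F g hg)

theorem e_W {W : H ≃ₗᵢ[ℂ] H} (h : S.Sym F W) (x : H) : S.e F (W x) = W (S.e F x) := by
  refine proj_comm (S.sub F) (W.toContinuousLinearEquiv : H →L[ℂ] H) (fun x hx => W_sub h hx)
    (fun x hx => ?_) x
  rw [star_W]
  exact W_sub h.symm hx

theorem Ad_e {W : H ≃ₗᵢ[ℂ] H} (h : S.Sym F W) : Ad W (S.e F) = S.e F := by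
  ext x
  rw [Ad_apply, ← e_W h, LinearIsometryEquiv.apply_symm_apply]

theorem R_W {W : H ≃ₗᵢ[ℂ] H} (h : S.Sym F W) {f : H →L[ℂ] H} (hf : f ∈ S.A) (x : H) :
    S.R (Ad W f) (W x) = W (S.R f x) := by
  refine S.dense_ind (p := fun x => S.R (Ad W f) (W x) = W (S.R f x))
    (isClosed_eq (by fun_prop) (by fun_prop)) (fun a ha => ?_) x
  rw [W_Ω h, S.R_Ω (h.map_A f hf) (h.map_A a ha), S.R_Ω hf ha]
  simp only [Ad_apply, h.symm.map_Ω, LinearIsometryEquiv.symm_apply_apply]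

theorem N_Ad (hF : S.IsSubsystem F) {W : H ≃ₗᵢ[ℂ] H} (h : S.Sym F W) {T : H →L[ℂ] H}
    (hT : T ∈ S.N F) : Ad W T ∈ S.N F := by
  intro f hf x
  have h1 := R_W h.symm (hF.le f hf) x
  rw [Ad_apply, Ad_apply, ← h1, hT _ (h.symm_F f hf),
    ← R_W h (h.symm_A f (hF.le f hf)), Ad_Ad_symm]

/-! ### the basic construction -/

theorem basic_N (hF : S.IsSubsystem F) {T : H →L[ℂ] H} (hT : T ∈ S.basic F) : T ∈ S.N F := by
  intro f hf x
  have h1 : S.R f ∈ Set.centralizer ((S.A : Set (H →L[ℂ] H)) ∪ {S.e F}) := by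
    rw [Set.mem_centralizer_iff]
    rintro a (ha | ha)
    · ext y
      exact (S.R_comm (hF.le f hf) ha y).symm
    · rw [Set.mem_singleton_iff] at ha
      subst ha
      ext y
      exact e_mem_N hF f hf y
  have h2 := Set.mem_centralizer_iff.1 hT _ h1
  exact (congrArg (fun Z : H →L[ℂ] H => Z x) h2).symm

theorem A_basic {a : H →L[ℂ] H} (ha : a ∈ S.A) : a ∈ S.basic F :=
  Set.subset_centralizer_centralizer (Or.inl ha)

theorem e_basic : S.e F ∈ S.basic F :=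
  Set.subset_centralizer_centralizer (Or.inr rfl)

theorem basic_mul {T T' : H →L[ℂ] H} (hT : T ∈ S.basic F) (hT' : T' ∈ S.basic F) :
    T * T' ∈ S.basic F :=
  Set.mul_mem_centralizer hT hT'

theorem cent_star {Z : H →L[ℂ] H}
    (hZ : Z ∈ Set.centralizer ((S.A : Set (H →L[ℂ] H)) ∪ {S.e F})) :
    star Z ∈ Set.centralizer ((S.A : Set (H →L[ℂ] H)) ∪ {S.e F}) := by
  rw [Set.mem_centralizer_iff] at hZ ⊢
  have key : ∀ a, star a ∈ (S.A : Set (H →L[ℂ] H)) ∪ {S.e F} → a * star Z = star Z * a := by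
    intro a ha
    have := congrArg star (hZ _ ha)
    rw [star_mul, star_mul, star_star] at this
    exact this.symm
  rintro a (ha | ha)
  · exact key a (Or.inl (star_mem (S := VonNeumannAlgebra H) ha))
  · rw [Set.mem_singleton_iff] at ha
    subst ha
    exact key _ (Or.inr star_e)

theorem basic_star {T : H →L[ℂ] H} (hT : T ∈ S.basic F) : star T ∈ S.basic F := by
  unfold basic at hT ⊢
  rw [Set.mem_centralizer_iff] at hT ⊢
  intro Z hZ
  have h1 := hT _ (cent_star hZ)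
  have := congrArg star h1
  rw [star_mul, star_mul, star_star] at this
  exact this.symm

theorem cent_Ad {W : H ≃ₗᵢ[ℂ] H} (h : S.Sym F W) {Z : H →L[ℂ] H}
    (hZ : Z ∈ Set.centralizer ((S.A : Set (H →L[ℂ] H)) ∪ {S.e F})) :
    Ad W Z ∈ Set.centralizer ((S.A : Set (H →L[ℂ] H)) ∪ {S.e F}) := by
  rw [Set.mem_centralizer_iff] at hZ ⊢
  have key : ∀ a, Ad W.symm a ∈ (S.A : Set (H →L[ℂ] H)) ∪ {S.e F} →
      a * Ad W Z = Ad W Z * a := by
    intro a ha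
    have := congrArg (Ad W) (hZ _ ha)
    rw [Ad_mul, Ad_mul, Ad_Ad_symm] at this
    exact this
  rintro a (ha | ha)
  · exact key a (Or.inl (h.symm_A a ha))
  · rw [Set.mem_singleton_iff] at ha
    subst ha
    exact key _ (Or.inr (Ad_e h.symm))

theorem basic_Ad {W : H ≃ₗᵢ[ℂ] H} (h : S.Sym F W) {T : H →L[ℂ] H} (hT : T ∈ S.basic F) :
    Ad W T ∈ S.basic F := by
  unfold basic at hT ⊢
  rw [Set.mem_centralizer_iff] at hT ⊢
  intro Z hZ
  have h1 := congrArg (Ad W) (hT _ (cent_Ad h.symm hZ))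
  rw [Ad_mul, Ad_mul, Ad_Ad_symm] at h1
  exact h1

/-! ### the trace property on `e_F ⟨A, e_F⟩ e_F` -/

theorem J_eq (hF : S.IsSubsystem F) {x : H →L[ℂ] H} (hx : x ∈ S.N F)
    (h1 : S.e F * x = x) (h2 : x * S.e F = x) : (star x) S.Ω = S.J (x S.Ω) := by
  have hm1 : (star x) S.Ω ∈ S.sub F := by
    have h3 : star x = S.e F * star x := by
      have := congrArg star h2
      rw [star_mul, star_e] at this
      exact this.symm
    rw [h3]
    exact Submodule.starProjection_apply_mem _ _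
  have hm2 : S.J (x S.Ω) ∈ S.sub F := by
    refine J_sub hF ?_
    rw [← h1]
    exact Submodule.starProjection_apply_mem _ _
  have hm3 : (star x) S.Ω - S.J (x S.Ω) ∈ S.sub F := Submodule.sub_mem _ hm1 hm2
  have h4 : S.sub F ≤ LinearMap.ker
      (innerSL ℂ ((star x) S.Ω - S.J (x S.Ω)) : H →L[ℂ] ℂ).toLinearMap := by
    refine sub_ind ?_ ?_
    · exact (innerSL ℂ ((star x) S.Ω - S.J (x S.Ω)) : H →L[ℂ] ℂ).isClosed_ker
    · intro f hf
      rw [LinearMap.mem_ker]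
      show ⟪(star x) S.Ω - S.J (x S.Ω), f S.Ω⟫_ℂ = 0
      rw [inner_sub_left, sub_eq_zero, adj_left]
      have h5 : f S.Ω = S.R f S.Ω := (S.R_Ω' (hF.le f hf)).symm
      calc ⟪S.Ω, x (f S.Ω)⟫_ℂ = ⟪S.Ω, S.R f (x S.Ω)⟫_ℂ := by rw [h5, hx f hf]
        _ = ⟪S.R (star f) S.Ω, x S.Ω⟫_ℂ := by rw [S.R_adj, star_star]
        _ = ⟪S.J (f S.Ω), x S.Ω⟫_ℂ := by
            rw [S.R_Ω' (star_mem (hF.le f hf)), S.J_apply f (hF.le f hf)]
        _ = ⟪S.J (x S.Ω), f S.Ω⟫_ℂ := by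
            conv_lhs => rw [← S.J_J (x S.Ω)]
            rw [S.inner_J_J]
  have h6 := h4 hm3
  rw [LinearMap.mem_ker] at h6
  have h7 : ⟪(star x) S.Ω - S.J (x S.Ω), (star x) S.Ω - S.J (x S.Ω)⟫_ℂ = 0 := h6
  exact sub_eq_zero.1 (inner_self_eq_zero.1 h7)

theorem norm_star (hF : S.IsSubsystem F) {x : H →L[ℂ] H} (hx : x ∈ S.N F)
    (h1 : S.e F * x = x) (h2 : x * S.e F = x) : ‖(star x) S.Ω‖ = ‖x S.Ω‖ := by
  rw [J_eq hF hx h1 h2, LinearIsometryEquiv.norm_map]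

end WSystem

end Pool.Agent.V7H75.WS
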