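import Pool.Agent.V7H75.WS.Frame

set_option autoImplicit false
set_option linter.unusedSectionVars false
set_option linter.unusedVariables false

open scoped InnerProductSpace ENNReal

namespace Pool.Agent.V7H75.WS

universe u

variable {H : Type u} [NormedAddCommGroup H] [InnerProductSpace ℂ H] [CompleteSpace H]

theorem sq_enorm {E : Type*} [SeminormedAddCommGroup E] (y : E) :
    ‖y‖ₑ ^ 2 = ENNReal.ofReal (‖y‖ ^ 2) := by
  rw [← ofReal_norm, ENNReal.ofReal_pow (norm_nonneg _)]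

theorem ofReal_star_mul (Y : H →L[ℂ] H) (x : H) :
    ENNReal.ofReal (⟪x, (star Y * Y) x⟫_ℂ).re = ‖Y x‖ₑ ^ 2 := by
  have : ⟪x, (star Y * Y) x⟫_ℂ = ⟪Y x, Y x⟫_ℂ := adj_right Y x (Y x)
  rw [this, re_self, sq_enorm]

namespace WSystem

variable {S : WSystem H} {F G : VonNeumannAlgebra H}

/-! ### Bessel families -/

theorem bessel_Ad {ι : Type*} {v : ι → H →L[ℂ] H} (h : S.Bessel F v) {W : H ≃ₗᵢ[ℂ] H}
    (hW : S.Sym F W) : S.Bessel F (fun i => Ad W (v i)) := by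
  refine ⟨fun i => basic_Ad hW (h.basic i), fun i => ?_, fun x => ?_⟩
  · have := congrArg (Ad W) (h.e i)
    rwa [Ad_mul, Ad_e hW] at this
  · have h1 := h.le (W.symm x)
    have h2 : ‖W.symm x‖ₑ = ‖x‖ₑ := by
      rw [← ofReal_norm, ← ofReal_norm, LinearIsometryEquiv.norm_map]
    rw [h2] at h1
    refine le_trans (le_of_eq ?_) h1
    refine tsum_congr fun i => ?_
    rw [star_Ad, Ad_apply, ← ofReal_norm, ← ofReal_norm, LinearIsometryEquiv.norm_map]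

theorem frame_Ad {ι : Type*} {v : ι → H →L[ℂ] H} (h : S.Frame F v) {W : H ≃ₗᵢ[ℂ] H}
    (hW : S.Sym F W) : S.Frame F (fun i => Ad W (v i)) := by
  refine ⟨bessel_Ad h.toBessel hW, fun x => ?_⟩
  have h1 := h.eq (W.symm x)
  have h2 : ‖W.symm x‖ₑ = ‖x‖ₑ := by
    rw [← ofReal_norm, ← ofReal_norm, LinearIsometryEquiv.norm_map]
  rw [h2] at h1
  refine Eq.trans ?_ h1
  refine tsum_congr fun i => ?_
  rw [star_Ad, Ad_apply, ← ofReal_norm, ← ofReal_norm, LinearIsometryEquiv.norm_map]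

theorem bessel_comp {ι κ : Type*} {v : ι → H →L[ℂ] H} (h : S.Bessel F v) (f : κ → ι)
    (hf : Function.Injective f) : S.Bessel F (fun i => v (f i)) :=
  ⟨fun i => h.basic _, fun i => h.e _,
    fun x => (ENNReal.tsum_comp_le_tsum_of_injective hf _).trans (h.le x)⟩

theorem enorm_star (hF : S.IsSubsystem F) {x : H →L[ℂ] H} (hx : x ∈ S.N F)
    (h1 : S.e F * x = x) (h2 : x * S.e F = x) : ‖(star x) S.Ω‖ₑ = ‖x S.Ω‖ₑ := by
  rw [← ofReal_norm, ← ofReal_norm, norm_star hF hx h1 h2]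

/-- the exchange of two families -/
theorem swap (hF : S.IsSubsystem F) {ι κ : Type*} {v : ι → H →L[ℂ] H} {w : κ → H →L[ℂ] H}
    (hv : S.Bessel F v) (hw : S.Bessel F w) {Y : H →L[ℂ] H} (hY : Y ∈ S.N F) :
    ∑' j, ∑' i, ‖(star (v i)) (Y (w j S.Ω))‖ₑ ^ 2 =
      ∑' i, ∑' j, ‖(star (w j)) ((star Y) (v i S.Ω))‖ₑ ^ 2 := by
  rw [ENNReal.tsum_comm]
  refine tsum_congr fun i => tsum_congr fun j => ?_
  have h1 : star (v i) * Y * w j ∈ S.N F :=
    N_mul (N_mul (N_star (basic_N hF (hv.basic i))) hY) (basic_N hF (hw.basic j))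
  have h2 : S.e F * (star (v i) * Y * w j) = star (v i) * Y * w j := by
    have := congrArg star (hv.e i)
    rw [star_mul, star_e] at this
    rw [← mul_assoc, ← mul_assoc, this]
  have h3 : (star (v i) * Y * w j) * S.e F = star (v i) * Y * w j := by
    rw [mul_assoc, hw.e j]
  have h4 := enorm_star hF h1 h2 h3
  have h5 : star (star (v i) * Y * w j) = star (w j) * (star Y * v i) := by
    rw [star_mul, star_mul, star_star]
  rw [h5] at h4
  have h6 : (star (w j) * (star Y * v i)) S.Ω = (star (w j)) ((star Y) (v i S.Ω)) := rfl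
  have h7 : (star (v i) * Y * w j) S.Ω = (star (v i)) (Y (w j S.Ω)) := rfl
  rw [h6, h7] at h4
  rw [h4]

theorem tsum_le_frame (hF : S.IsSubsystem F) {ι κ : Type*} {v : ι → H →L[ℂ] H}
    {w : κ → H →L[ℂ] H} (hv : S.Frame F v) (hw : S.Bessel F w) {Y : H →L[ℂ] H}
    (hY : Y ∈ S.N F) :
    ∑' j, ‖Y (w j S.Ω)‖ₑ ^ 2 ≤ ∑' i, ‖(star Y) (v i S.Ω)‖ₑ ^ 2 := by
  calc ∑' j, ‖Y (w j S.Ω)‖ₑ ^ 2 = ∑' j, ∑' i, ‖(star (v i)) (Y (w j S.Ω))‖ₑ ^ 2 :=
        tsum_congr fun j => (hv.eq _).symm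
    _ = ∑' i, ∑' j, ‖(star (w j)) ((star Y) (v i S.Ω))‖ₑ ^ 2 := swap hF hv.toBessel hw hY
    _ ≤ _ := ENNReal.tsum_le_tsum fun i => hw.le _

theorem tsum_frame_star (hF : S.IsSubsystem F) {ι κ : Type*} {v : ι → H →L[ℂ] H}
    {w : κ → H →L[ℂ] H} (hv : S.Frame F v) (hw : S.Frame F w) {Y : H →L[ℂ] H}
    (hY : Y ∈ S.N F) :
    ∑' j, ‖Y (w j S.Ω)‖ₑ ^ 2 = ∑' i, ‖(star Y) (v i S.Ω)‖ₑ ^ 2 := by
  refine le_antisymm (tsum_le_frame hF hv hw.toBessel hY) ?_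
  have := tsum_le_frame hF hw hv.toBessel (N_star hY)
  rwa [star_star] at this

theorem tsum_frame_eq (hF : S.IsSubsystem F) {ι κ : Type*} {v : ι → H →L[ℂ] H}
    {w : κ → H →L[ℂ] H} (hv : S.Frame F v) (hw : S.Frame F w) {Y : H →L[ℂ] H}
    (hY : Y ∈ S.N F) :
    ∑' j, ‖Y (w j S.Ω)‖ₑ ^ 2 = ∑' i, ‖Y (v i S.Ω)‖ₑ ^ 2 := by
  rw [tsum_frame_star hF hv hw hY, ← tsum_frame_star hF hv hv hY]

/-- the trace of `y y*` is at most `‖y Ω‖ ^ 2` if `y = y e_F` -/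
theorem tsum_star_le (hF : S.IsSubsystem F) {κ : Type*} {w : κ → H →L[ℂ] H}
    (hw : S.Bessel F w) {y : H →L[ℂ] H} (hy : y ∈ S.N F) (hye : y * S.e F = y) :
    ∑' j, ‖(star y) (w j S.Ω)‖ₑ ^ 2 ≤ ‖y S.Ω‖ₑ ^ 2 := by
  refine le_trans (le_of_eq ?_) (hw.le (y S.Ω))
  refine tsum_congr fun j => ?_
  have h1 : star y * w j ∈ S.N F := N_mul (N_star hy) (basic_N hF (hw.basic j))
  have h2 : S.e F * (star y * w j) = star y * w j := by
    have := congrArg star hye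
    rw [star_mul, star_e] at this
    rw [← mul_assoc, this]
  have h3 : (star y * w j) * S.e F = star y * w j := by rw [mul_assoc, hw.e j]
  have h4 := enorm_star hF h1 h2 h3
  rw [star_mul, star_star] at h4
  exact congrArg (· ^ 2) h4.symm

theorem tsum_star_eq (hF : S.IsSubsystem F) {κ : Type*} {w : κ → H →L[ℂ] H}
    (hw : S.Frame F w) {y : H →L[ℂ] H} (hy : y ∈ S.N F) (hye : y * S.e F = y) :
    ∑' j, ‖(star y) (w j S.Ω)‖ₑ ^ 2 = ‖y S.Ω‖ₑ ^ 2 := by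
  refine Eq.trans ?_ (hw.eq (y S.Ω))
  refine tsum_congr fun j => ?_
  have h1 : star y * w j ∈ S.N F := N_mul (N_star hy) (basic_N hF (hw.basic j))
  have h2 : S.e F * (star y * w j) = star y * w j := by
    have := congrArg star hye
    rw [star_mul, star_e] at this
    rw [← mul_assoc, this]
  have h3 : (star y * w j) * S.e F = star y * w j := by rw [mul_assoc, hw.e j]
  have h4 := enorm_star hF h1 h2 h3
  rw [star_mul, star_star] at h4
  exact congrArg (· ^ 2) h4.symm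

/-! ### `barMu` -/

theorem quad_sum {n : ℕ} (v : Fin n → H →L[ℂ] H) (x : H) :
    (⟪(1 - ∑ i, v i * star (v i)) x, x⟫_ℂ).re = ‖x‖ ^ 2 - ∑ i, ‖(star (v i)) x‖ ^ 2 := by
  have h1 : (1 - ∑ i, v i * star (v i)) x = x - ∑ i, v i ((star (v i)) x) := by
    simp
  rw [h1, inner_sub_left, Complex.sub_re, re_self, sum_inner, Complex.re_sum]
  congr 1
  refine Finset.sum_congr rfl fun i _ => ?_
  rw [← adj_right (v i), re_self]

theorem isPositive_of_quad {n : ℕ} (v : Fin n → H →L[ℂ] H)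
    (h : ∀ x, ∑ i, ‖(star (v i)) x‖ ^ 2 ≤ ‖x‖ ^ 2) : ∑ i, v i * star (v i) ≤ 1 := by
  rw [ContinuousLinearMap.le_def, ContinuousLinearMap.isPositive_def']
  refine ⟨?_, fun x => ?_⟩
  · unfold IsSelfAdjoint
    simp [star_sub, star_sum, star_mul]
  · show 0 ≤ (⟪(1 - ∑ i, v i * star (v i)) x, x⟫_ℂ).re
    rw [quad_sum]
    linarith [h x]

theorem bessel_of_le {n : ℕ} {v : Fin n → H →L[ℂ] H} (hb : ∀ i, v i ∈ S.basic F)
    (he : ∀ i, v i * S.e F = v i) (h : ∑ i, v i * star (v i) ≤ 1) : S.Bessel F v := by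
  refine ⟨hb, he, fun x => ?_⟩
  have h1 := ((ContinuousLinearMap.le_def _ _).1 h).re_inner_nonneg_left x
  have h2 : 0 ≤ ‖x‖ ^ 2 - ∑ i, ‖(star (v i)) x‖ ^ 2 := by
    rw [← quad_sum]
    exact h1
  rw [tsum_fintype]
  simp_rw [sq_enorm]
  rw [← ENNReal.ofReal_sum_of_nonneg (fun i _ => by positivity)]
  exact ENNReal.ofReal_le_ofReal (by linarith)

theorem barMu_le {T : H →L[ℂ] H} {C : ℝ≥0∞}
    (h : ∀ (n : ℕ) (v : Fin n → H →L[ℂ] H), S.Bessel F v →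
      ∑ i, ENNReal.ofReal (⟪v i S.Ω, T (v i S.Ω)⟫_ℂ).re ≤ C) : S.barMu F T ≤ C := by
  unfold barMu
  refine iSup_le fun n => iSup_le fun v => iSup_le fun h1 => iSup_le fun h2 => iSup_le fun h3 => ?_
  exact h n v (bessel_of_le h1 h2 h3)

theorem sum_le_barMu {T : H →L[ℂ] H} {n : ℕ} {v : Fin n → H →L[ℂ] H} (h : S.Bessel F v) :
    ∑ i, ENNReal.ofReal (⟪v i S.Ω, T (v i S.Ω)⟫_ℂ).re ≤ S.barMu F T := by
  unfold barMu
  refine le_iSup_of_le n (le_iSup_of_le v (le_iSup_of_le h.basic (le_iSup_of_le h.e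
    (le_iSup_of_le (isPositive_of_quad v fun x => ?_) le_rfl))))
  have h1 := h.le x
  rw [tsum_fintype] at h1
  simp_rw [sq_enorm] at h1
  rw [← ENNReal.ofReal_sum_of_nonneg (fun i _ => by positivity)] at h1
  exact (ENNReal.ofReal_le_ofReal_iff (by positivity)).1 h1

theorem tsum_le_barMu {T : H →L[ℂ] H} {ι : Type*} {v : ι → H →L[ℂ] H} (h : S.Bessel F v) :
    ∑' i, ENNReal.ofReal (⟪v i S.Ω, T (v i S.Ω)⟫_ℂ).re ≤ S.barMu F T := by
  rw [ENNReal.tsum_eq_iSup_sum]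
  refine iSup_le fun t => ?_
  have h1 := sum_le_barMu (T := T) (bessel_comp h (fun i : Fin t.card => (t.equivFin.symm i).1)
    (fun a b hab => t.equivFin.symm.injective (Subtype.ext hab)))
  refine le_trans (le_of_eq ?_) h1
  rw [← Finset.sum_coe_sort]
  exact Fintype.sum_equiv t.equivFin _ _ (fun i => by simp)

/-- the trace of a positive operator, by a frame -/
theorem barMu_eq (hF : S.IsSubsystem F) {ι : Type*} {v : ι → H →L[ℂ] H} (hv : S.Frame F v)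
    {Y : H →L[ℂ] H} (hY : Y ∈ S.N F) :
    S.barMu F (star Y * Y) = ∑' i, ‖Y (v i S.Ω)‖ₑ ^ 2 := by
  refine le_antisymm (barMu_le fun n w hw => ?_) ?_
  · have h1 := tsum_le_frame hF hv hw hY
    rw [← tsum_frame_star hF hv hv hY, tsum_fintype] at h1
    refine le_trans (le_of_eq ?_) h1
    exact Finset.sum_congr rfl fun i _ => ofReal_star_mul Y _
  · refine le_trans (le_of_eq ?_) (tsum_le_barMu hv.toBessel)
    exact tsum_congr fun i => (ofReal_star_mul Y _).symm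

end WSystem

end Pool.Agent.V7H75.WS
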